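import Pool.Agent.Helper58.N4.Ring
import Pool.Agent.Helper58.N4.Frame

/-!
# Null 2-type surfaces with flat normal bundle: the principal frame relations
-/

set_option autoImplicit false
set_option linter.all false
set_option maxRecDepth 100000

namespace NF

variable {A : Type*} [CommRing A] [Algebra ℝ A]

theorem num_cancel {r : ℝ} (hr : r ≠ 0) {u : A} (h : algebraMap ℝ A r * u = 0) : u = 0 := by
  have h1 : algebraMap ℝ A r⁻¹ * (algebraMap ℝ A r * u) = u := by
    rw [← mul_assoc, ← map_mul, inv_mul_cancel₀ hr, map_one, one_mul]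
  rw [← h1, h, mul_zero]

theorem nat_cancel (n : ℕ) (hn : n ≠ 0) {u : A} (h : (n : A) * u = 0) : u = 0 := by
  have hr : (n : ℝ) ≠ 0 := by exact_mod_cast hn
  apply num_cancel hr
  rw [map_natCast]
  exact h

theorem D2z (D : Derivation ℝ A A) : D (2 : A) = 0 := by
  have := D.map_natCast 2
  exact_mod_cast this

theorem D3z (D : Derivation ℝ A A) : D (3 : A) = 0 := by
  have := D.map_natCast 3
  exact_mod_cast this

theorem D4z (D : Derivation ℝ A A) : D (4 : A) = 0 := by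
  have := D.map_natCast 4
  exact_mod_cast this

theorem D6z (D : Derivation ℝ A A) : D (6 : A) = 0 := by
  have := D.map_natCast 6
  exact_mod_cast this

theorem D8z (D : Derivation ℝ A A) : D (8 : A) = 0 := by
  have := D.map_natCast 8
  exact_mod_cast this

theorem Dsq (D : Derivation ℝ A A) (a : A) : D (a ^ 2) = 2 * a * D a := by
  rw [pow_two, Derivation.leibniz]
  simp only [smul_eq_mul]
  ring

/-- the relations of the principal frame -/
structure PF (D1 D2 : Derivation ℝ A A) (p q h x y al be : A) (c : ℝ) : Prop where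
  comm : ∀ u, D1 (D2 u) - D2 (D1 u) = -p * D1 u + q * D2 u
  h1 : D1 h = -al * h * y
  h2 : D2 h = be * h * y
  x1 : D1 x = al * y * (1 + 2 * x) + 2 * q * x
  x2 : D2 x = be * y * (1 - 2 * x) + 2 * p * x
  y1 : D1 y = al * (y ^ 2 + 2 - x - x ^ 2) + 2 * q * y
  y2 : D2 y = -be * (y ^ 2 + 2 + x - x ^ 2) + 2 * p * y
  al2 : 2 * y * D2 al = -2 * y * be * q + al * be * (2 * x - (x ^ 2 + y ^ 2))
  be1 : 2 * y * D1 be = -2 * y * al * p + al * be * (2 * x + (x ^ 2 + y ^ 2))
  al1 : 4 * y * D1 al = 4 * y * be * p - ((6 * (al ^ 2 + be ^ 2) + 2 * h ^ 2 + algebraMap ℝ A c)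
    * (2 - x) + (3 * (al ^ 2 - be ^ 2) + 2 * h ^ 2 * x) * (2 * x - (x ^ 2 + y ^ 2)))
  be2 : 4 * y * D2 be = 4 * y * al * q + ((6 * (al ^ 2 + be ^ 2) + 2 * h ^ 2 + algebraMap ℝ A c)
    * (2 + x) + (3 * (al ^ 2 - be ^ 2) + 2 * h ^ 2 * x) * (2 * x + (x ^ 2 + y ^ 2)))
  pq : D1 q + D2 p = p ^ 2 + q ^ 2 + h ^ 2 * (1 - (x ^ 2 + y ^ 2))
  r1 : 2 * x * (D1 p - D2 q) = -al * be * (4 - (x ^ 2 + y ^ 2))
  r2 : (x ^ 2 + y ^ 2) * (D1 p - D2 q) = -4 * y * (al * p + be * q)

theorem PF.of_se {D1 D2 : Derivation ℝ A A} {p q h w1 w2 x y : A} {c : ℝ}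
    (S : N4.SE D1 D2 p q h w1 w2 (h * (1 + x)) 0 (h * (1 - x)) (h * y) 0 (-(h * y)) c)
    (hu : IsUnit h) (yu : IsUnit y) :
    ∃ al be : A, w1 = (2 + x) * al ∧ w2 = (2 - x) * be ∧ PF D1 D2 p q h x y al be c := by
  obtain ⟨hi, hhi⟩ := hu.exists_right_inv
  obtain ⟨yi, hyi⟩ := yu.exists_right_inv
  obtain ⟨al, hal⟩ : ∃ al : A, al = -(D1 h) * hi * yi := ⟨_, rfl⟩
  obtain ⟨be, hbe⟩ : ∃ be : A, be = D2 h * hi * yi := ⟨_, rfl⟩
  have h1 : D1 h = -al * h * y := by
    rw [hal]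
    linear_combination (-(D1 h) * h * hi) * hyi - D1 h * hhi
  have h2 : D2 h = be * h * y := by
    rw [hbe]
    linear_combination (-(D2 h) * h * hi) * hyi - D2 h * hhi
  have ch : ∀ {u : A}, h * u = 0 → u = 0 := fun {u} hh => (hu.mul_right_eq_zero).1 hh
  have cy : ∀ {u : A}, y * u = 0 → u = 0 := fun {u} hh => (yu.mul_right_eq_zero).1 hh
  have w1e : w1 = (2 + x) * al := by
    have := S.tan1
    rw [← sub_eq_zero]
    apply cy; apply ch; apply ch
    rw [h1] at this
    linear_combination this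
  have w2e : w2 = (2 - x) * be := by
    have := S.tan2
    rw [← sub_eq_zero]
    apply cy; apply ch; apply ch
    rw [h2] at this
    linear_combination -this
  have lb : ∀ (D : Derivation ℝ A A) (a b : A), D (a * b) = a * D b + b * D a := by
    intro D a b
    rw [Derivation.leibniz]
    rfl
  have x2 : D2 x = be * y * (1 - 2 * x) + 2 * p * x := by
    have := S.cod31
    rw [lb, map_zero, map_add, D2.map_one_eq_zero, h2, w2e] at this
    rw [← sub_eq_zero]
    apply ch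
    linear_combination -this
  have x1 : D1 x = al * y * (1 + 2 * x) + 2 * q * x := by
    have := S.cod32
    rw [lb, map_zero, map_sub, D1.map_one_eq_zero, h1, w1e] at this
    rw [← sub_eq_zero]
    apply ch
    linear_combination -this
  have y2 : D2 y = -be * (y ^ 2 + 2 + x - x ^ 2) + 2 * p * y := by
    have := S.cod41
    rw [lb, map_zero, h2, w2e] at this
    rw [← sub_eq_zero]
    apply ch
    linear_combination -this
  have y1 : D1 y = al * (y ^ 2 + 2 - x - x ^ 2) + 2 * q * y := by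
    have := S.cod42
    rw [map_neg, lb, map_zero, h1, w1e] at this
    rw [← sub_eq_zero]
    apply ch
    linear_combination -this
  have ric := S.ricci
  rw [w1e, w2e, lb, lb, map_add, map_sub, D2z, D2z, x1, x2] at ric
  have ch1 := S.comm h
  rw [h1, h2] at ch1
  have e1 : D1 (be * h * y) = be * h * D1 y + y * (be * D1 h + h * D1 be) := by
    rw [lb, lb]
  have e2 : D2 (-al * h * y) = -(al * h * D2 y + y * (al * D2 h + h * D2 al)) := by
    rw [lb, lb, map_neg]; ring
  rw [e1, e2, h1, h2, y1, y2] at ch1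
  have ch2 : y * (D1 be + D2 al) = 2 * x * al * be - y * (q * be + p * al) := by
    rw [← sub_eq_zero]
    apply ch
    linear_combination ch1
  have al2 : 2 * y * D2 al = -2 * y * be * q + al * be * (2 * x - (x ^ 2 + y ^ 2)) := by
    rw [← sub_eq_zero]
    apply N4.two_cancel
    linear_combination (2 - x) * ch2 - y * ric
  have be1 : 2 * y * D1 be = -2 * y * al * p + al * be * (2 * x + (x ^ 2 + y ^ 2)) := by
    rw [← sub_eq_zero]
    apply N4.two_cancel
    linear_combination (2 + x) * ch2 + y * ric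
  have k11 : D1 (-al * h * y) = -(al * h * D1 y + y * (al * D1 h + h * D1 al)) := by
    rw [lb, lb, map_neg]; ring
  have k22 : D2 (be * h * y) = be * h * D2 y + y * (be * D2 h + h * D2 be) := by
    rw [lb, lb]
  have l3 := S.lap3
  rw [h1, h2, k11, k22, h1, h2, y1, y2, w1e, w2e] at l3
  have l3' : y * (D2 be - D1 al) = algebraMap ℝ A c + 2 * h ^ 2 * (1 + x ^ 2)
      + 3 * al ^ 2 * (2 + x) + 3 * be ^ 2 * (2 - x) + al * q * y - be * p * y := by
    rw [← sub_eq_zero]
    apply ch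
    linear_combination l3
  have l4 := S.lap4
  rw [w1e, w2e, lb, lb, map_add, map_sub, D2z, D2z, x1, x2, h1, h2] at l4
  have l4' : (2 + x) * D1 al + (2 - x) * D2 be = 3 * y * (al ^ 2 - be ^ 2) + q * al * (2 - x)
      + p * be * (2 + x) + 2 * h ^ 2 * x * y := by
    rw [← sub_eq_zero]
    apply ch
    linear_combination l4
  have al1 : 4 * y * D1 al = 4 * y * be * p - ((6 * (al ^ 2 + be ^ 2) + 2 * h ^ 2
      + algebraMap ℝ A c)
      * (2 - x) + (3 * (al ^ 2 - be ^ 2) + 2 * h ^ 2 * x) * (2 * x - (x ^ 2 + y ^ 2))) := by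
    linear_combination y * l4' - (2 - x) * l3'
  have be2 : 4 * y * D2 be = 4 * y * al * q + ((6 * (al ^ 2 + be ^ 2) + 2 * h ^ 2
      + algebraMap ℝ A c)
      * (2 + x) + (3 * (al ^ 2 - be ^ 2) + 2 * h ^ 2 * x) * (2 * x + (x ^ 2 + y ^ 2))) := by
    linear_combination y * l4' + (2 + x) * l3'
  have pq : D1 q + D2 p = p ^ 2 + q ^ 2 + h ^ 2 * (1 - (x ^ 2 + y ^ 2)) := by
    linear_combination S.gauss
  have cx := S.comm x
  rw [x1, x2] at cx
  have f1 : D1 (be * y * (1 - 2 * x) + 2 * p * x) = -2 * be * y * D1 x + (1 - 2 * x) * (be * D1 y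
      + y * D1 be) + 2 * p * D1 x + 2 * x * D1 p := by
    simp only [map_add, map_sub, lb, D2z, D1.map_one_eq_zero]; ring
  have f2 : D2 (al * y * (1 + 2 * x) + 2 * q * x) = 2 * al * y * D2 x + (1 + 2 * x) * (al * D2 y
      + y * D2 al) + 2 * q * D2 x + 2 * x * D2 q := by
    simp only [map_add, map_sub, lb, D2z, D2.map_one_eq_zero]; ring
  rw [f1, f2, x1, x2, y1, y2] at cx
  have r1 : 2 * x * (D1 p - D2 q) = -al * be * (4 - (x ^ 2 + y ^ 2)) := by
    rw [← sub_eq_zero]
    apply N4.two_cancel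
    linear_combination 2 * cx - (1 - 2 * x) * be1 + (1 + 2 * x) * al2
  have cyy := S.comm y
  rw [y1, y2] at cyy
  have g1 : D1 (-be * (y ^ 2 + 2 + x - x ^ 2) + 2 * p * y) = -be * (2 * y * D1 y + D1 x
      - 2 * x * D1 x) - (y ^ 2 + 2 + x - x ^ 2) * D1 be + 2 * p * D1 y + 2 * y * D1 p := by
    simp only [map_add, map_sub, map_neg, lb, Dsq, D2z, D1.map_one_eq_zero]; ring
  have g2 : D2 (al * (y ^ 2 + 2 - x - x ^ 2) + 2 * q * y) = al * (2 * y * D2 y - D2 x
      - 2 * x * D2 x) + (y ^ 2 + 2 - x - x ^ 2) * D2 al + 2 * q * D2 y + 2 * y * D2 q := by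
    simp only [map_add, map_sub, map_neg, lb, Dsq, D2z, D2.map_one_eq_zero]; ring
  rw [g1, g2, x1, x2, y1, y2] at cyy
  have r2 : (x ^ 2 + y ^ 2) * (D1 p - D2 q) = -4 * y * (al * p + be * q) := by
    rw [← sub_eq_zero]
    apply nat_cancel 4 (by norm_num)
    push_cast
    linear_combination 2 * y * cyy + 2 * x * r1 + (y ^ 2 + 2 + x - x ^ 2) * be1
      + (y ^ 2 + 2 - x - x ^ 2) * al2
  exact ⟨al, be, w1e, w2e, S.comm, h1, h2, x1, x2, y1, y2, al2, be1, al1, be2, pq, r1, r2⟩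

end NF
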