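import Mathlib

/-!
# Null 2-type surfaces with flat normal bundle: frames on an open set of the plane
-/

set_option autoImplicit false
set_option linter.all false

namespace NF

open scoped ContDiff

/-- Euclidean 4-space -/
abbrev E4 := EuclideanSpace ℝ (Fin 4)

/-- derivative of `φ` along the vector field `e` -/
noncomputable def dd {G : Type} [NormedAddCommGroup G] [NormedSpace ℝ G]
    (e : ℝ × ℝ → ℝ × ℝ) (φ : ℝ × ℝ → G) (z : ℝ × ℝ) : G := fderiv ℝ φ z (e z)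

/-- a smooth frame `e1, e2` on the open set `V` with `[e1, e2] = - p e1 + q e2` -/
structure Fr0 (V : Set (ℝ × ℝ)) (e1 e2 : ℝ × ℝ → ℝ × ℝ) (p q : ℝ × ℝ → ℝ) : Prop where
  op : IsOpen V
  se1 : ContDiffOn ℝ ∞ e1 V
  se2 : ContDiffOn ℝ ∞ e2 V
  sp : ContDiffOn ℝ ∞ p V
  sq : ContDiffOn ℝ ∞ q V
  ind : ∀ z ∈ V, (e1 z).1 * (e2 z).2 - (e1 z).2 * (e2 z).1 ≠ 0
  comm : ∀ z ∈ V, fderiv ℝ e2 z (e1 z) - fderiv ℝ e1 z (e2 z) = -(p z) • e1 z + q z • e2 z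

/-- principal frame of a null 2-type surface with flat normal bundle: unit tangent vectors `t1, t2`,
half sum `H` and half difference `r` of the curvature vectors of the two principal directions -/
structure Fr (V : Set (ℝ × ℝ)) (e1 e2 : ℝ × ℝ → ℝ × ℝ) (p q : ℝ × ℝ → ℝ)
    (t1 t2 H r : ℝ × ℝ → E4) (c : ℝ) : Prop extends Fr0 V e1 e2 p q where
  st1 : ContDiffOn ℝ ∞ t1 V
  st2 : ContDiffOn ℝ ∞ t2 V
  sH : ContDiffOn ℝ ∞ H V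
  sr : ContDiffOn ℝ ∞ r V
  o11 : ∀ z ∈ V, inner ℝ (t1 z) (t1 z) = (1 : ℝ)
  o22 : ∀ z ∈ V, inner ℝ (t2 z) (t2 z) = (1 : ℝ)
  o12 : ∀ z ∈ V, inner ℝ (t1 z) (t2 z) = (0 : ℝ)
  oH1 : ∀ z ∈ V, inner ℝ (H z) (t1 z) = (0 : ℝ)
  oH2 : ∀ z ∈ V, inner ℝ (H z) (t2 z) = (0 : ℝ)
  or1 : ∀ z ∈ V, inner ℝ (r z) (t1 z) = (0 : ℝ)
  or2 : ∀ z ∈ V, inner ℝ (r z) (t2 z) = (0 : ℝ)
  d11 : ∀ z ∈ V, dd e1 t1 z = p z • t2 z + H z + r z
  d21 : ∀ z ∈ V, dd e2 t1 z = -(q z) • t2 z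
  d12 : ∀ z ∈ V, dd e1 t2 z = -(p z) • t1 z
  d22 : ∀ z ∈ V, dd e2 t2 z = q z • t1 z + H z - r z
  eH : ∀ z ∈ V, dd e1 (dd e1 H) z + dd e2 (dd e2 H) z - q z • dd e1 H z - p z • dd e2 H z
    = c • H z

/-- the scalar structure equations: `h = |H|²`, `m = H·r`, `n = |r|²`, `a = - H·d1 H`,
`b = H·d2 H` -/
structure Sc (V : Set (ℝ × ℝ)) (e1 e2 : ℝ × ℝ → ℝ × ℝ) (p q h m n a b : ℝ × ℝ → ℝ) (c : ℝ) : Prop
    extends Fr0 V e1 e2 p q where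
  sh : ContDiffOn ℝ ∞ h V
  sm : ContDiffOn ℝ ∞ m V
  sn : ContDiffOn ℝ ∞ n V
  sa : ContDiffOn ℝ ∞ a V
  sb : ContDiffOn ℝ ∞ b V
  h0 : ∀ z ∈ V, 0 ≤ h z
  n0 : ∀ z ∈ V, 0 ≤ n z
  w0 : ∀ z ∈ V, 0 ≤ h z * n z - m z ^ 2
  h1 : ∀ z ∈ V, dd e1 h z = -2 * a z
  h2 : ∀ z ∈ V, dd e2 h z = 2 * b z
  n1 : ∀ z ∈ V, dd e1 n z = 4 * a z + 4 * q z * n z
  n2 : ∀ z ∈ V, dd e2 n z = -4 * b z + 4 * p z * n z
  m1 : ∀ z ∈ V, dd e1 m z = a z + 2 * q z * m z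
  m2 : ∀ z ∈ V, dd e2 m z = b z + 2 * p z * m z
  G : ∀ z ∈ V, dd e1 q z + dd e2 p z = p z ^ 2 + q z ^ 2 + h z - n z
  b1 : ∀ z ∈ V, 0 < h z * n z - m z ^ 2 → dd e1 b z = 2 * q z * b z - p z * a z
    + a z * b z * (4 * h z - n z) / (2 * (h z * n z - m z ^ 2))
  a2 : ∀ z ∈ V, 0 < h z * n z - m z ^ 2 → dd e2 a z = 2 * p z * a z - q z * b z
    - a z * b z * (4 * h z - n z) / (2 * (h z * n z - m z ^ 2))
  K3 : ∀ z ∈ V, 0 < h z * n z - m z ^ 2 → -dd e1 a z + dd e2 b z = c * h z + 2 * h z ^ 2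
    + 2 * m z ^ 2 + a z ^ 2 * (4 * h z + 4 * m z + n z) / (h z * n z - m z ^ 2)
    + b z ^ 2 * (4 * h z - 4 * m z + n z) / (h z * n z - m z ^ 2) - q z * a z + p z * b z
  K4 : ∀ z ∈ V, 0 < h z * n z - m z ^ 2 → 2 * (dd e1 a z + dd e2 b z) = c * m z + 4 * h z * m z
    + a z ^ 2 * (4 * h z + 4 * m z + n z) / (h z * n z - m z ^ 2)
    - b z ^ 2 * (4 * h z - 4 * m z + n z) / (h z * n z - m z ^ 2)
    + 6 * q z * a z + 6 * p z * b z - 2 * m z * (h z - n z)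
  R1 : ∀ z ∈ V, 0 < h z * n z - m z ^ 2 → 2 * m z * (dd e1 p z - dd e2 q z)
    = -(a z * b z * (4 * h z - n z) / (h z * n z - m z ^ 2))
  R2 : ∀ z ∈ V, 0 < h z * n z - m z ^ 2 → 2 * n z * (dd e1 p z - dd e2 q z)
    = -8 * (p z * a z + q z * b z)

section Basic

variable {G : Type} [NormedAddCommGroup G] [NormedSpace ℝ G] {V : Set (ℝ × ℝ)}
  {e e1 e2 : ℝ × ℝ → ℝ × ℝ} {p q : ℝ × ℝ → ℝ} {φ ψ : ℝ × ℝ → G} {z : ℝ × ℝ}

theorem diffAt (hV : IsOpen V) (hφ : ContDiffOn ℝ ∞ φ V) (hz : z ∈ V) :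
    DifferentiableAt ℝ φ z :=
  (hφ.contDiffAt (hV.mem_nhds hz)).differentiableAt (by simp)

theorem dd_smooth (hV : IsOpen V) (he : ContDiffOn ℝ ∞ e V) (hφ : ContDiffOn ℝ ∞ φ V) :
    ContDiffOn ℝ ∞ (dd e φ) V := by
  unfold dd
  exact (hφ.fderiv_of_isOpen hV (by simp)).clm_apply he

theorem dd_congr (hV : IsOpen V) (h : Set.EqOn φ ψ V) (hz : z ∈ V) : dd e φ z = dd e ψ z := by
  unfold dd
  rw [Filter.EventuallyEq.fderiv_eq (h.eventuallyEq_of_mem (hV.mem_nhds hz))]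

theorem dd_zero_of_eq_const (hV : IsOpen V) (k : G) (h : ∀ z ∈ V, φ z = k) (hz : z ∈ V) :
    dd e φ z = 0 := by
  have : dd e φ z = dd e (fun _ => k) z := dd_congr hV (fun z hz => h z hz) hz
  rw [this]
  unfold dd
  simp

/-- the commutator rule -/
theorem Fr0.com (F : Fr0 V e1 e2 p q) (hφ : ContDiffOn ℝ ∞ φ V) (hz : z ∈ V) :
    dd e1 (dd e2 φ) z - dd e2 (dd e1 φ) z = -(p z) • dd e1 φ z + q z • dd e2 φ z := by
  have hV := F.op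
  have hf : ContDiffAt ℝ ∞ φ z := hφ.contDiffAt (hV.mem_nhds hz)
  have hsym : IsSymmSndFDerivAt ℝ φ z := hf.isSymmSndFDerivAt
    (by rw [minSmoothness_of_isRCLikeNormedField]; exact WithTop.coe_le_coe.2 (OrderTop.le_top _))
  have hdf : DifferentiableAt ℝ (fderiv ℝ φ) z :=
    ((hφ.fderiv_of_isOpen hV (m := ∞) (by simp)).contDiffAt (hV.mem_nhds hz)).differentiableAt (by simp)
  have h1 : DifferentiableAt ℝ e1 z := diffAt hV F.se1 hz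
  have h2 : DifferentiableAt ℝ e2 z := diffAt hV F.se2 hz
  have k1 : dd e1 (dd e2 φ) z = fderiv ℝ (fderiv ℝ φ) z (e1 z) (e2 z)
      + fderiv ℝ φ z (fderiv ℝ e2 z (e1 z)) := by
    have : HasFDerivAt (dd e2 φ) _ z := hdf.hasFDerivAt.clm_apply h2.hasFDerivAt
    change fderiv ℝ (dd e2 φ) z (e1 z) = _
    rw [this.fderiv]
    simp [add_comm]
  have k2 : dd e2 (dd e1 φ) z = fderiv ℝ (fderiv ℝ φ) z (e2 z) (e1 z)
      + fderiv ℝ φ z (fderiv ℝ e1 z (e2 z)) := by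
    have : HasFDerivAt (dd e1 φ) _ z := hdf.hasFDerivAt.clm_apply h1.hasFDerivAt
    change fderiv ℝ (dd e1 φ) z (e2 z) = _
    rw [this.fderiv]
    simp [add_comm]
  have k3 := hsym (e1 z) (e2 z)
  rw [k1, k2, k3, add_sub_add_left_eq_sub, ← map_sub, F.comm z hz]
  simp [dd]

end Basic

end NF
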