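import Pool.Agent.Helper3.NF.Pt

/-!
# Null 2-type surfaces with flat normal bundle: the two linear conditions
-/

set_option autoImplicit false
set_option linter.all false
set_option maxRecDepth 100000

namespace NF

section
variable {x y α β h p q c x1 x2 y1 y2 h1 h2 A1 A2 B1 B2 p1 p2 q1 q2 A12 A21 B12 B21 : ℝ}

theorem PtV.sumdif
    (V : PtV x y α β h p q c x1 x2 y1 y2 h1 h2 A1 A2 B1 B2 p1 p2 q1 q2 A12 A21 B12 B21)
    (hx : x ≠ 0) (hy : y ≠ 0) (hα : α ≠ 0) (hβ : β ≠ 0) (hh : h ≠ 0) :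
    SUM (x ^ 2) (x ^ 2 + y ^ 2) (y * p / β - (x ^ 2 + y ^ 2) * (4 - (x ^ 2 + y ^ 2)) / (16 * x)
      - 2) ((α ^ 2 + β ^ 2) / h ^ 2) (x * (α ^ 2 - β ^ 2) / h ^ 2) (-c / h ^ 2) = 0 ∧
    DIF (x ^ 2) (x ^ 2 + y ^ 2) (y * p / β - (x ^ 2 + y ^ 2) * (4 - (x ^ 2 + y ^ 2)) / (16 * x)
      - 2) ((α ^ 2 + β ^ 2) / h ^ 2) (x * (α ^ 2 - β ^ 2) / h ^ 2) (-c / h ^ 2) = 0 := by
  obtain ⟨P, hP⟩ : ∃ P, p = β * P := ⟨p / β, by field_simp⟩
  obtain ⟨C, hC⟩ : ∃ C, c = -C * h ^ 2 := ⟨-c / h ^ 2, by field_simp⟩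
  have hq : q = α * ((x ^ 2 + y ^ 2) * (4 - (x ^ 2 + y ^ 2)) / (8 * x * y) - P) := by
    have := V.eC0
    rw [hP] at this
    field_simp
    apply mul_left_cancel₀ hβ
    linear_combination this
  have hA2 : A2 = (-2 * y * β * q + α * β * (2 * x - (x ^ 2 + y ^ 2))) / (2 * y) := by
    have := V.eal2
    field_simp
    linear_combination this
  have hB1 : B1 = (-2 * y * α * p + α * β * (2 * x + (x ^ 2 + y ^ 2))) / (2 * y) := by
    have := V.ebe1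
    field_simp
    linear_combination this
  have hA1 : A1 = (4 * y * β * p - ((6 * (α ^ 2 + β ^ 2) + 2 * h ^ 2 + c)
    * (2 - x) + (3 * (α ^ 2 - β ^ 2) + 2 * h ^ 2 * x) * (2 * x - (x ^ 2 + y ^ 2)))) / (4 * y) := by
    have := V.eal1
    field_simp
    linear_combination this
  have hB2 : B2 = (4 * y * α * q + ((6 * (α ^ 2 + β ^ 2) + 2 * h ^ 2 + c)
    * (2 + x) + (3 * (α ^ 2 - β ^ 2) + 2 * h ^ 2 * x) * (2 * x + (x ^ 2 + y ^ 2)))) / (4 * y) := by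
    have := V.ebe2
    field_simp
    linear_combination this
  have hp2 : p2 = p ^ 2 + q ^ 2 + h ^ 2 * (1 - (x ^ 2 + y ^ 2)) - q1 := by
    linear_combination V.epq
  have hA12 : A12 = (-2 * (y1 * β * q + y * B1 * q + y * β * q1)
      + (A1 * β + α * B1) * (2 * x - (x ^ 2 + y ^ 2))
      + α * β * (2 * x1 - 2 * x * x1 - 2 * y * y1) - 2 * y1 * A2) / (2 * y) := by
    have := V.ea12
    field_simp
    linear_combination this
  have hB21 : B21 = (-2 * (y2 * α * p + y * A2 * p + y * α * p2)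
      + (A2 * β + α * B2) * (2 * x + (x ^ 2 + y ^ 2))
      + α * β * (2 * x2 + 2 * x * x2 + 2 * y * y2) - 2 * y2 * B1) / (2 * y) := by
    have := V.eb21
    field_simp
    linear_combination this
  have hA21 : A21 = (4 * (y2 * β * p + y * B2 * p + y * β * p2)
      - ((12 * (α * A2 + β * B2) + 4 * h * h2) * (2 - x)
      - (6 * (α ^ 2 + β ^ 2) + 2 * h ^ 2 + c) * x2
      + (6 * (α * A2 - β * B2) + 4 * h * h2 * x + 2 * h ^ 2 * x2)
        * (2 * x - (x ^ 2 + y ^ 2))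
      + (3 * (α ^ 2 - β ^ 2) + 2 * h ^ 2 * x) * (2 * x2 - 2 * x * x2 - 2 * y * y2))
      - 4 * y2 * A1) / (4 * y) := by
    have := V.ea21
    field_simp
    linear_combination this
  have hB12 : B12 = (4 * (y1 * α * q + y * A1 * q + y * α * q1)
      + ((12 * (α * A1 + β * B1) + 4 * h * h1) * (2 + x)
      + (6 * (α ^ 2 + β ^ 2) + 2 * h ^ 2 + c) * x1
      + (6 * (α * A1 - β * B1) + 4 * h * h1 * x + 2 * h ^ 2 * x1)
        * (2 * x + (x ^ 2 + y ^ 2))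
      + (3 * (α ^ 2 - β ^ 2) + 2 * h ^ 2 * x) * (2 * x1 + 2 * x * x1 + 2 * y * y1))
      - 4 * y1 * B2) / (4 * y) := by
    have := V.eb12
    field_simp
    linear_combination this
  have ha : A12 - A21 + p * A1 - q * A2 = 0 := by linear_combination V.eca
  have hb : B12 - B21 + p * B1 - q * B2 = 0 := by linear_combination V.ecb
  constructor
  · have key : SUM (x ^ 2) (x ^ 2 + y ^ 2) (y * p / β - (x ^ 2 + y ^ 2) * (4 - (x ^ 2 + y ^ 2))
      / (16 * x)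
      - 2) ((α ^ 2 + β ^ 2) / h ^ 2) (x * (α ^ 2 - β ^ 2) / h ^ 2) (-c / h ^ 2) =
      x * y ^ 2 * ((A12 - A21 + p * A1 - q * A2) / (β * h ^ 2)
        + (B12 - B21 + p * B1 - q * B2) / (α * h ^ 2)) := by
      rw [hA12, hA21, hB12, hB21, hp2, hA1, hA2, hB1, hB2, V.eh1, V.eh2, V.ex1, V.ex2, V.ey1,
        V.ey2, hq, hP, hC]
      unfold SUM
      field_simp
      ring
    rw [key, ha, hb]
    simp
  · have key : DIF (x ^ 2) (x ^ 2 + y ^ 2) (y * p / β - (x ^ 2 + y ^ 2) * (4 - (x ^ 2 + y ^ 2))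
      / (16 * x)
      - 2) ((α ^ 2 + β ^ 2) / h ^ 2) (x * (α ^ 2 - β ^ 2) / h ^ 2) (-c / h ^ 2) =
      y ^ 2 * ((A12 - A21 + p * A1 - q * A2) / (β * h ^ 2)
        - (B12 - B21 + p * B1 - q * B2) / (α * h ^ 2)) := by
      rw [hA12, hA21, hB12, hB21, hp2, hA1, hA2, hB1, hB2, V.eh1, V.eh2, V.ex1, V.ex2, V.ey1,
        V.ey2, hq, hP, hC]
      unfold DIF
      field_simp
      ring
    rw [key, ha, hb]
    simp

end

end NF
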