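import Pool.Agent.Helper3.NF.Gen1

/-!
# Null 2-type surfaces with flat normal bundle: derivatives along the level curves
-/

set_option autoImplicit false
set_option linter.all false
set_option maxRecDepth 100000

namespace NF

section
variable {x y α β h p q c x1 x2 y1 y2 h1 h2 A1 A2 B1 B2 p1 p2 q1 q2 A12 A21 B12 B21 : ℝ}

theorem PtV.vals
    (V : PtV x y α β h p q c x1 x2 y1 y2 h1 h2 A1 A2 B1 B2 p1 p2 q1 q2 A12 A21 B12 B21)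
    (hx : x ≠ 0) (hy : y ≠ 0) (hα : α ≠ 0) (hβ : β ≠ 0) (hh : h ≠ 0) :
    q = α * ((x ^ 2 + y ^ 2) * (4 - (x ^ 2 + y ^ 2)) / (8 * x * y) - p / β) ∧
    A2 = (-2 * y * β * q + α * β * (2 * x - (x ^ 2 + y ^ 2))) / (2 * y) ∧
    B1 = (-2 * y * α * p + α * β * (2 * x + (x ^ 2 + y ^ 2))) / (2 * y) ∧
    A1 = (4 * y * β * p - ((6 * (α ^ 2 + β ^ 2) + 2 * h ^ 2 + c)
    * (2 - x) + (3 * (α ^ 2 - β ^ 2) + 2 * h ^ 2 * x) * (2 * x - (x ^ 2 + y ^ 2)))) / (4 * y) ∧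
    B2 = (4 * y * α * q + ((6 * (α ^ 2 + β ^ 2) + 2 * h ^ 2 + c)
    * (2 + x) + (3 * (α ^ 2 - β ^ 2) + 2 * h ^ 2 * x) * (2 * x + (x ^ 2 + y ^ 2)))) / (4 * y) ∧
    p1 / α + p2 / β = (-(4 * y * β * (α * β * (4 - (x ^ 2 + y ^ 2))))
      + (α * B2 + β * A2) * (x ^ 2 + y ^ 2)
      * (4 - (x ^ 2 + y ^ 2)) + α * β * (4 - 2 * (x ^ 2 + y ^ 2))
      * (2 * x * x2 + 2 * y * y2) - 8 * (x2 * y + x * y2) * (β * q + α * p)
      - 8 * x * y * (q * B2 + p * A2)) / (8 * x * y * α * β) := by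
  refine ⟨?_, ?_, ?_, ?_, ?_, ?_⟩
  · have := V.eC0
    field_simp
    linear_combination this
  · have := V.eal2
    field_simp
    linear_combination this
  · have := V.ebe1
    field_simp
    linear_combination this
  · have := V.eal1
    field_simp
    linear_combination this
  · have := V.ebe2
    field_simp
    linear_combination this
  · have h1 := V.edC2
    have h2 := V.er1
    field_simp
    linear_combination h1 + 4 * y * β * h2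

/-- derivative of a function along the level curve -/
noncomputable def dv (x y α β f1 f2 : ℝ) : ℝ := x * y * (f1 / α + f2 / β)

theorem PtV.dx
    (V : PtV x y α β h p q c x1 x2 y1 y2 h1 h2 A1 A2 B1 B2 p1 p2 q1 q2 A12 A21 B12 B21)
    (hx : x ≠ 0) (hy : y ≠ 0) (hα : α ≠ 0) (hβ : β ≠ 0) (hh : h ≠ 0) :
    dv x y α β x1 x2 = 2 * x * y ^ 2 + x * (x ^ 2 + y ^ 2) * (4 - (x ^ 2 + y ^ 2)) / 4 := by
  obtain ⟨hq, hA2, hB1, hA1, hB2, hW⟩ := V.vals hx hy hα hβ hh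
  unfold dv
  rw [V.ex1, V.ex2, hq]
  field_simp
  ring

theorem PtV.dy
    (V : PtV x y α β h p q c x1 x2 y1 y2 h1 h2 A1 A2 B1 B2 p1 p2 q1 q2 A12 A21 B12 B21)
    (hx : x ≠ 0) (hy : y ≠ 0) (hα : α ≠ 0) (hβ : β ≠ 0) (hh : h ≠ 0) :
    dv x y α β y1 y2 = -2 * x ^ 2 * y + y * (x ^ 2 + y ^ 2) * (4 - (x ^ 2 + y ^ 2)) / 4 := by
  obtain ⟨hq, hA2, hB1, hA1, hB2, hW⟩ := V.vals hx hy hα hβ hh
  unfold dv
  rw [V.ey1, V.ey2, hq]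
  field_simp
  ring

theorem PtV.dh
    (V : PtV x y α β h p q c x1 x2 y1 y2 h1 h2 A1 A2 B1 B2 p1 p2 q1 q2 A12 A21 B12 B21)
    (hx : x ≠ 0) (hy : y ≠ 0) (hα : α ≠ 0) (hβ : β ≠ 0) (hh : h ≠ 0) :
    dv x y α β h1 h2 = 0 := by
  unfold dv
  rw [V.eh1, V.eh2]
  field_simp
  ring

theorem PtV.du
    (V : PtV x y α β h p q c x1 x2 y1 y2 h1 h2 A1 A2 B1 B2 p1 p2 q1 q2 A12 A21 B12 B21)
    (hx : x ≠ 0) (hy : y ≠ 0) (hα : α ≠ 0) (hβ : β ≠ 0) (hh : h ≠ 0) :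
    ∀ X N u : ℝ, X = x ^ 2 → N = x ^ 2 + y ^ 2 → u = y * p / β - N * (4 - N) / (16 * x) - 2 →
    (dv x y α β y1 y2 * p + y * dv x y α β p1 p2) / β - y * p * dv x y α β B1 B2 / β ^ 2
      - ((N ^ 2 * (4 - N) / 2) * (4 - 2 * N) / (16 * x) - N * (4 - N) * dv x y α β x1 x2
      / (16 * x ^ 2))
      = -(5 / 2) * X * N - 4 * X * u - 4 * X
    + 3 / 16 * N ^ 3 - N ^ 2 * u - N ^ 2 / 2 + 2 * N * u + N := by
  intro X N u hX hN hu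
  obtain ⟨hq, hA2, hB1, hA1, hB2, hW⟩ := V.vals hx hy hα hβ hh
  obtain ⟨P, hP⟩ : ∃ P, p = β * P := ⟨p / β, by field_simp⟩
  obtain ⟨C, hC⟩ : ∃ C, c = -C * h ^ 2 := ⟨-c / h ^ 2, by field_simp⟩
  rw [V.dx hx hy hα hβ hh, V.dy hx hy hα hβ hh]
  unfold dv
  subst hX hN hu
  rw [hW, hB1, hB2, hA2, V.ex2, V.ey2, hq, hP, hC]
  field_simp
  ring

theorem PtV.ds
    (V : PtV x y α β h p q c x1 x2 y1 y2 h1 h2 A1 A2 B1 B2 p1 p2 q1 q2 A12 A21 B12 B21)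
    (hx : x ≠ 0) (hy : y ≠ 0) (hα : α ≠ 0) (hβ : β ≠ 0) (hh : h ≠ 0) :
    ∀ X N s e C : ℝ, X = x ^ 2 → N = x ^ 2 + y ^ 2 → s = (α ^ 2 + β ^ 2) / h ^ 2 →
    e = x * (α ^ 2 - β ^ 2) / h ^ 2 → C = -c / h ^ 2 →
    (2 * α * dv x y α β A1 A2 + 2 * β * dv x y α β B1 B2) / h ^ 2
      = 2 * X * N + 8 * X * s - X * C + 2 * X + 2 * N * e := by
  intro X N s e C hX hN hs he hC
  obtain ⟨hq, hA2, hB1, hA1, hB2, hW⟩ := V.vals hx hy hα hβ hh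
  obtain ⟨P, hP⟩ : ∃ P, p = β * P := ⟨p / β, by field_simp⟩
  unfold dv
  subst hX hN hs he hC
  rw [hB1, hB2, hA1, hA2, hq, hP]
  field_simp
  ring

theorem PtV.de
    (V : PtV x y α β h p q c x1 x2 y1 y2 h1 h2 A1 A2 B1 B2 p1 p2 q1 q2 A12 A21 B12 B21)
    (hx : x ≠ 0) (hy : y ≠ 0) (hα : α ≠ 0) (hβ : β ≠ 0) (hh : h ≠ 0) :
    ∀ X N u s e C : ℝ, X = x ^ 2 → N = x ^ 2 + y ^ 2 → s = (α ^ 2 + β ^ 2) / h ^ 2 →
    u = y * p / β - N * (4 - N) / (16 * x) - 2 →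
    e = x * (α ^ 2 - β ^ 2) / h ^ 2 → C = -c / h ^ 2 →
    (dv x y α β x1 x2 * (α ^ 2 - β ^ 2) + x * (2 * α * dv x y α β A1 A2
      - 2 * β * dv x y α β B1 B2)) / h ^ 2
      = 2 * N * e - 6 * X * e - 4 * X ^ 2
    + X * (4 * u * s - N * s - 4 * s + 2 * C - 4) := by
  intro X N u s e C hX hN hs hu he hC
  obtain ⟨hq, hA2, hB1, hA1, hB2, hW⟩ := V.vals hx hy hα hβ hh
  obtain ⟨P, hP⟩ : ∃ P, p = β * P := ⟨p / β, by field_simp⟩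
  rw [V.dx hx hy hα hβ hh]
  unfold dv
  subst hX hN hs hu he hC
  rw [hB1, hB2, hA1, hA2, hq, hP]
  field_simp
  ring

end

end NF
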