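import Pool.Agent.Helper3.NF.Gen2

/-!
# Null 2-type surfaces with flat normal bundle: the six functions along a level curve
-/

set_option autoImplicit false
set_option linter.all false
set_option maxRecDepth 100000

namespace NF

variable {A : Type*} [CommRing A] [Algebra ℝ A]
variable {D1 D2 : Derivation ℝ A A} {p q h x y al be : A} {c : ℝ}

/-- a curve along the derivation `D` -/
structure Cur (D : Derivation ℝ A A) (φ : ℝ → (A →ₐ[ℝ] ℝ)) (ε : ℝ) : Prop where
  pos : 0 < ε
  d : ∀ t ∈ Set.Ioo (-ε) ε, ∀ a : A, HasDerivAt (fun t => φ t a) (φ t (D a)) t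

theorem Lev.of_cur (P : PF D1 D2 p q h x y al be c) (ai bi : A) (hai : al * ai = 1)
    (hbi : be * bi = 1) {φ : ℝ → (A →ₐ[ℝ] ℝ)} {ε : ℝ}
    (K : Cur ((x * y * ai) • D1 + (x * y * bi) • D2) φ ε)
    (hx : ∀ t ∈ Set.Ioo (-ε) ε, φ t x ≠ 0) (hy : ∀ t ∈ Set.Ioo (-ε) ε, φ t y ≠ 0)
    (hh : ∀ t ∈ Set.Ioo (-ε) ε, φ t h ≠ 0)
    (h4 : ∀ t ∈ Set.Ioo (-ε) ε, φ t x ^ 2 + φ t y ^ 2 ≠ 4) :
    Lev (fun t => φ t x ^ 2) (fun t => φ t x ^ 2 + φ t y ^ 2)
      (fun t => φ t y * φ t p / φ t be - (φ t x ^ 2 + φ t y ^ 2) * (4 - (φ t x ^ 2 + φ t y ^ 2))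
        / (16 * φ t x) - 2)
      (fun t => (φ t al ^ 2 + φ t be ^ 2) / φ t h ^ 2)
      (fun t => φ t x * (φ t al ^ 2 - φ t be ^ 2) / φ t h ^ 2)
      (fun t => -c / φ t h ^ 2) (-ε) ε := by
  have hα : ∀ t, φ t al ≠ 0 := fun t h0 => by
    have := congrArg (φ t) hai
    rw [map_mul, map_one, h0, zero_mul] at this
    exact zero_ne_one this
  have hβ : ∀ t, φ t be ≠ 0 := fun t h0 => by
    have := congrArg (φ t) hbi
    rw [map_mul, map_one, h0, zero_mul] at this
    exact zero_ne_one this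
  have hai' : ∀ t, φ t ai = (φ t al)⁻¹ := fun t => by
    have := congrArg (φ t) hai
    rw [map_mul, map_one] at this
    field_simp [hα t]
    linear_combination this
  have hbi' : ∀ t, φ t bi = (φ t be)⁻¹ := fun t => by
    have := congrArg (φ t) hbi
    rw [map_mul, map_one] at this
    field_simp [hβ t]
    linear_combination this
  have hd : ∀ t ∈ Set.Ioo (-ε) ε, ∀ a : A, HasDerivAt (fun t => φ t a)
      (dv (φ t x) (φ t y) (φ t al) (φ t be) (φ t (D1 a)) (φ t (D2 a))) t := by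
    intro t ht a
    refine (K.d t ht a).congr_deriv ?_
    have e : ((x * y * ai) • D1 + (x * y * bi) • D2) a = x * y * ai * D1 a + x * y * bi * D2 a := by
      simp
    rw [e]
    simp only [map_add, map_mul, hai', hbi', dv]
    ring
  have hV := fun t : ℝ => P.pt (φ t)
  refine ⟨?_, ?_, h4, ?_, ?_, ?_, ?_, ?_, ?_, ?_, ?_⟩
  · intro t ht
    have := hx t ht
    positivity
  · intro t ht
    have h2 := hy t ht
    have : 0 < φ t y ^ 2 := by positivity
    show φ t x ^ 2 < φ t x ^ 2 + φ t y ^ 2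
    linarith
  · intro t ht
    have e := (hV t).dx (hx t ht) (hy t ht) (hα t) (hβ t) (hh t ht)
    refine ((hd t ht x).fun_pow 2).congr_deriv ?_
    rw [e]
    push_cast
    ring
  · intro t ht
    have e := (hV t).dx (hx t ht) (hy t ht) (hα t) (hβ t) (hh t ht)
    have e2 := (hV t).dy (hx t ht) (hy t ht) (hα t) (hβ t) (hh t ht)
    refine (((hd t ht x).fun_pow 2).fun_add ((hd t ht y).fun_pow 2)).congr_deriv ?_
    rw [e, e2]
    push_cast
    ring
  · intro t ht
    have hx0 := hx t ht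
    have hβ0 := hβ t
    have e := (hV t).dx (hx t ht) (hy t ht) (hα t) (hβ t) (hh t ht)
    have e2 := (hV t).dy (hx t ht) (hy t ht) (hα t) (hβ t) (hh t ht)
    have eu := (hV t).du (hx t ht) (hy t ht) (hα t) (hβ t) (hh t ht) _ _ _ rfl rfl rfl
    have hN := (((hd t ht x).fun_pow 2).fun_add ((hd t ht y).fun_pow 2))
    have hN4 := hN.fun_mul (hN.const_sub 4)
    refine (((((hd t ht y).fun_mul (hd t ht p)).fun_div (hd t ht be) hβ0).fun_sub
      (hN4.fun_div ((hd t ht x).const_mul 16) (by positivity))).sub_const 2).congr_deriv ?_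
    rw [← eu]
    push_cast
    rw [e, e2]
    field_simp
    ring
  · intro t ht
    have hh0 := hh t ht
    have dh := (hV t).dh (hx t ht) (hy t ht) (hα t) (hβ t) (hh t ht)
    have eu := (hV t).ds (hx t ht) (hy t ht) (hα t) (hβ t) (hh t ht) _ _ _ _ _ rfl rfl rfl rfl rfl
    refine (((((hd t ht al).fun_pow 2).fun_add ((hd t ht be).fun_pow 2))).fun_div
      ((hd t ht h).fun_pow 2) (by positivity)).congr_deriv ?_
    rw [← eu]
    push_cast
    rw [dh]
    field_simp
    ring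
  · intro t ht
    have hh0 := hh t ht
    have dh := (hV t).dh (hx t ht) (hy t ht) (hα t) (hβ t) (hh t ht)
    have eu := (hV t).de (hx t ht) (hy t ht) (hα t) (hβ t) (hh t ht) _ _ _ _ _ _ rfl rfl rfl rfl
      rfl rfl
    refine (((hd t ht x).fun_mul (((hd t ht al).fun_pow 2).fun_sub ((hd t ht be).fun_pow 2))).fun_div
      ((hd t ht h).fun_pow 2) (by positivity)).congr_deriv ?_
    rw [← eu]
    push_cast
    rw [dh]
    field_simp
    ring
  · intro t ht
    have hh0 := hh t ht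
    have dh := (hV t).dh (hx t ht) (hy t ht) (hα t) (hβ t) (hh t ht)
    refine ((hasDerivAt_const t (-c)).fun_div ((hd t ht h).fun_pow 2) (by positivity)).congr_deriv ?_
    push_cast
    rw [dh]
    simp
  · intro t ht
    exact ((hV t).sumdif (hx t ht) (hy t ht) (hα t) (hβ t) (hh t ht)).1
  · intro t ht
    exact ((hV t).sumdif (hx t ht) (hy t ht) (hα t) (hβ t) (hh t ht)).2

end NF
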