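import Pool.Agent.Helper3.NF.Ode2

/-!
# Null 2-type surfaces with flat normal bundle: no level curve exists in the generic case
-/

set_option autoImplicit false
set_option linter.all false
set_option maxRecDepth 100000

namespace NF

theorem const_of_deriv {f : ℝ → ℝ} {a b : ℝ} (hf : ∀ t ∈ Set.Ioo a b, HasDerivAt f 0 t)
    {s t : ℝ} (hs : s ∈ Set.Ioo a b) (ht : t ∈ Set.Ioo a b) : f s = f t := by
  apply IsOpen.is_const_of_deriv_eq_zero (𝕜 := ℝ) isOpen_Ioo isPreconnected_Ioo _ _ hs ht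
  · intro τ hτ
    exact (hf τ hτ).differentiableAt.differentiableWithinAt
  · intro τ hτ
    exact (hf τ hτ).deriv

theorem Lev.false {X N u s e C : ℝ → ℝ} {a b : ℝ} (h : Lev X N u s e C a b) (hab : a < b) :
    False := by
  have hN0 : ∀ t ∈ Set.Ioo a b, 0 < N t := fun t ht => (h.hX t ht).trans (h.hXN t ht)
  obtain ⟨t0, ht0⟩ : (Set.Ioo a b).Nonempty := Set.nonempty_Ioo.2 hab
  -- the first integral J
  have dJ : ∀ t ∈ Set.Ioo a b, HasDerivAt
      (fun t => N t ^ 2 * (N t - X t) / (X t * (4 - N t) ^ 2)) 0 t := by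
    intro t ht
    have hX := h.dX t ht
    have hN := h.dN t ht
    have x0 : X t ≠ 0 := (h.hX t ht).ne'
    have m0 : 4 - N t ≠ 0 := sub_ne_zero.2 (h.hN4 t ht).symm
    refine (((hN.fun_pow 2).fun_mul (hN.fun_sub hX)).fun_div
      (hX.fun_mul ((hN.const_sub 4).fun_pow 2)) (by positivity)).congr_deriv ?_
    push_cast
    field_simp
    ring
  have dK : ∀ t ∈ Set.Ioo a b, HasDerivAt
      (fun t => (u t * N t ^ 3 / X t + 8 * N t - 3 / 2 * (N t * (4 - N t))
        - 3 / 8 * (N t * (4 - N t) ^ 2) - N t ^ 2 * (N t - X t) * (2 * N t - (4 - N t))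
          / (8 * X t)) / (N t * (4 - N t) ^ 3)) 0 t := by
    intro t ht
    have hX := h.dX t ht
    have hN := h.dN t ht
    have hu := h.du t ht
    have x0 : X t ≠ 0 := (h.hX t ht).ne'
    have n0 : N t ≠ 0 := (hN0 t ht).ne'
    have m0 : 4 - N t ≠ 0 := sub_ne_zero.2 (h.hN4 t ht).symm
    refine ((((((hu.fun_mul (hN.fun_pow 3)).fun_div hX x0).fun_add (hN.const_mul 8)).fun_sub
      ((hN.fun_mul (hN.const_sub 4)).const_mul (3 / 2))).fun_sub
      ((hN.fun_mul ((hN.const_sub 4).fun_pow 2)).const_mul (3 / 8))).fun_sub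
      ((((hN.fun_pow 2).fun_mul (hN.fun_sub hX)).fun_mul ((hN.const_mul 2).fun_sub
        (hN.const_sub 4))).fun_div (hX.const_mul 8) (by positivity))).fun_div
      (hN.fun_mul ((hN.const_sub 4).fun_pow 3)) (by positivity) |>.congr_deriv ?_
    push_cast
    field_simp
    ring
  obtain ⟨J, hJ⟩ : ∃ J : ℝ, J = N t0 ^ 2 * (N t0 - X t0) / (X t0 * (4 - N t0) ^ 2) := ⟨_, rfl⟩
  obtain ⟨κ, hκ⟩ : ∃ κ : ℝ, κ = (u t0 * N t0 ^ 3 / X t0 + 8 * N t0 - 3 / 2 * (N t0 * (4 - N t0))
        - 3 / 8 * (N t0 * (4 - N t0) ^ 2) - N t0 ^ 2 * (N t0 - X t0) * (2 * N t0 - (4 - N t0))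
          / (8 * X t0)) / (N t0 * (4 - N t0) ^ 3) := ⟨_, rfl⟩
  have hJt : ∀ t ∈ Set.Ioo a b, J = N t ^ 2 * (N t - X t) / (X t * (4 - N t) ^ 2) :=
    fun t ht => hJ.trans (const_of_deriv dJ ht0 ht)
  have hκt : ∀ t ∈ Set.Ioo a b, κ = (u t * N t ^ 3 / X t + 8 * N t - 3 / 2 * (N t * (4 - N t))
        - 3 / 8 * (N t * (4 - N t) ^ 2) - N t ^ 2 * (N t - X t) * (2 * N t - (4 - N t))
          / (8 * X t)) / (N t * (4 - N t) ^ 3) :=
    fun t ht => hκ.trans (const_of_deriv dK ht0 ht)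
  have hJ0 : 0 < J := by
    rw [hJ]
    have h1 := h.hX t0 ht0
    have h2 := h.hXN t0 ht0
    have h3 := hN0 t0 ht0
    have h4 : 0 < (4 - N t0) ^ 2 := by
      have : 4 - N t0 ≠ 0 := sub_ne_zero.2 (h.hN4 t0 ht0).symm
      positivity
    have h5 : 0 < N t0 - X t0 := sub_pos.2 h2
    positivity
  -- the polynomial relation
  have rel : ∀ t ∈ Set.Ioo a b, HDT (1 / N t) (1 + J * (4 * (1 / N t) - 1) ^ 2)
      (κ * (4 * (1 / N t) - 1) ^ 3 + 1 / N t * (3 / 8 * (1 + J * (4 * (1 / N t) - 1) ^ 2)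
        + 1 / N t * (4 * (1 / N t) - 4 - (1 + J * (4 * (1 / N t) - 1) ^ 2) / 2))) = 0 := by
    intro t ht
    have x0 : X t ≠ 0 := (h.hX t ht).ne'
    have n0 : N t ≠ 0 := (hN0 t ht).ne'
    have m0 : 4 - N t ≠ 0 := sub_ne_zero.2 (h.hN4 t ht).symm
    have e1 : 1 + J * (4 * (1 / N t) - 1) ^ 2 = N t / X t := by
      rw [hJt t ht]
      field_simp
      ring
    have e2 : κ * (4 * (1 / N t) - 1) ^ 3 + 1 / N t * (3 / 8 * (N t / X t)
        + 1 / N t * (4 * (1 / N t) - 4 - (N t / X t) / 2)) = u t / (N t * X t) := by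
      rw [hκt t ht]
      field_simp
      ring
    rw [e1, e2]
    have h1 := DT_HDT (1 / N t) (N t / X t) (u t / (N t * X t)) (by positivity)
      (div_ne_zero n0 x0)
    rw [← h1]
    have h2 : DT (1 / (1 / N t * (N t / X t))) (1 / (1 / N t))
        (u t / (N t * X t) / ((1 / N t) ^ 2 * (N t / X t))) = DT (X t) (N t) (u t) := by
      have a1 : 1 / (1 / N t * (N t / X t)) = X t := by field_simp
      have a2 : 1 / (1 / N t) = N t := by field_simp
      have a3 : u t / (N t * X t) / ((1 / N t) ^ 2 * (N t / X t)) = u t := by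
        field_simp
      rw [a1, a2, a3]
    rw [h2, h.dt ht, mul_zero]
  -- infinitely many values
  have inj : Set.InjOn (fun t => 1 / N t) (Set.Ioo a b) := by
    have key : ∀ p ∈ Set.Ioo a b, ∀ q ∈ Set.Ioo a b, p < q → N p ≠ N q := by
      intro p hp q hq hpq heq
      have hsub : Set.Icc p q ⊆ Set.Ioo a b := fun τ hτ => ⟨hp.1.trans_le hτ.1, hτ.2.trans_lt hq.2⟩
      obtain ⟨c, hc, hc2⟩ := exists_hasDerivAt_eq_zero (f := N)
        (f' := fun t => N t ^ 2 * (4 - N t) / 2) hpq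
        (fun τ hτ => (h.dN τ (hsub hτ)).continuousAt.continuousWithinAt) heq
        (fun τ hτ => h.dN τ (hsub (Set.Ioo_subset_Icc_self hτ)))
      have hc' := hsub (Set.Ioo_subset_Icc_self hc)
      have n0 : N c ≠ 0 := (hN0 c hc').ne'
      have m0 : 4 - N c ≠ 0 := sub_ne_zero.2 (h.hN4 c hc').symm
      have : N c ^ 2 * (4 - N c) / 2 ≠ 0 := by positivity
      exact this hc2
    intro p hp q hq hpq
    have hpq' : N p = N q := by
      have : 1 / N p = 1 / N q := hpq
      have n0 : N p ≠ 0 := (hN0 p hp).ne'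
      have n1 : N q ≠ 0 := (hN0 q hq).ne'
      field_simp at this
      exact this.symm
    rcases lt_trichotomy p q with hlt | heq | hgt
    · exact absurd hpq' (key p hp q hq hlt)
    · exact heq
    · exact absurd hpq'.symm (key q hq p hp hgt)
  have inf : ((fun t => 1 / N t) '' Set.Ioo a b).Infinite :=
    (Set.Ioo_infinite hab).image inj
  -- the polynomial
  let g : Polynomial ℝ := 1 + Polynomial.C J * (4 * Polynomial.X - 1) ^ 2
  let U : Polynomial ℝ := Polynomial.C κ * (4 * Polynomial.X - 1) ^ 3 + Polynomial.X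
    * (Polynomial.C (3 / 8) * g + Polynomial.X * (4 * Polynomial.X - 4 - Polynomial.C (1 / 2) * g))
  have ev1 : ∀ z : ℝ, Polynomial.eval z g = 1 + J * (4 * z - 1) ^ 2 := by
    intro z
    simp [g]
  have ev2 : ∀ z : ℝ, Polynomial.eval z U = κ * (4 * z - 1) ^ 3
      + z * (3 / 8 * (1 + J * (4 * z - 1) ^ 2)
        + z * (4 * z - 4 - (1 + J * (4 * z - 1) ^ 2) / 2)) := by
    intro z
    simp only [U, Polynomial.eval_add, Polynomial.eval_mul, Polynomial.eval_sub,
      Polynomial.eval_pow, Polynomial.eval_C, Polynomial.eval_X, Polynomial.eval_ofNat,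
      Polynomial.eval_one, ev1]
    ring
  have ev3 : ∀ z : ℝ, Polynomial.eval z (HDT Polynomial.X g U) =
      HDT z (Polynomial.eval z g) (Polynomial.eval z U) := by
    intro z
    have := HDT_map (Polynomial.evalRingHom z) Polynomial.X g U
    simpa using this
  have hz : HDT Polynomial.X g U = 0 := by
    apply Polynomial.eq_zero_of_infinite_isRoot
    apply inf.mono
    rintro z ⟨t, ht, rfl⟩
    show Polynomial.eval _ _ = 0
    rw [ev3, ev1, ev2]
    exact rel t ht
  have all : ∀ z : ℝ, HDT z (1 + J * (4 * z - 1) ^ 2) (κ * (4 * z - 1) ^ 3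
      + z * (3 / 8 * (1 + J * (4 * z - 1) ^ 2)
        + z * (4 * z - 4 - (1 + J * (4 * z - 1) ^ 2) / 2))) = 0 := by
    intro z
    rw [← ev2, ← ev1, ← ev3, hz, Polynomial.eval_zero]
  have k0 : κ = 0 := by
    have h0 := all 0
    unfold HDT at h0
    have h1 : κ ^ 4 * J ^ 2 = 0 := by linear_combination (-1 / 16384) * h0
    have h2 : κ ^ 4 = 0 := by
      rcases mul_eq_zero.1 h1 with h3 | h3
      · exact h3
      · exact absurd h3 (by positivity)
    exact pow_eq_zero_iff (by norm_num) |>.1 h2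
  -- the case κ = 0
  have relQ : ∀ z : ℝ, z ≠ 0 → HQ z (1 + J * (4 * z - 1) ^ 2) = 0 := by
    intro z hz0
    have h1 := all z
    rw [k0, zero_mul, zero_add] at h1
    have h2 := HDT_HQ z (1 + J * (4 * z - 1) ^ 2)
    rw [h1, mul_zero] at h2
    rcases mul_eq_zero.1 h2.symm with h3 | h3
    · exact absurd h3 (by positivity)
    · exact h3
  have ev4 : ∀ z : ℝ, Polynomial.eval z (HQ Polynomial.X g) =
      HQ z (1 + J * (4 * z - 1) ^ 2) := by
    intro z
    have := HQ_map (Polynomial.evalRingHom z) Polynomial.X g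
    rw [← ev1]
    simpa using this
  have hzQ : HQ Polynomial.X g = 0 := by
    apply Polynomial.eq_zero_of_infinite_isRoot
    refine (Set.Ioi_infinite (0 : ℝ)).mono ?_
    intro z hz1
    show Polynomial.eval _ _ = 0
    rw [ev4]
    exact relQ z (ne_of_gt hz1)
  have h0 := ev4 0
  rw [hzQ, Polynomial.eval_zero] at h0
  unfold HQ at h0
  have h1 : J * (1 + J) ^ 6 = 0 := by linear_combination (-1 / 8) * h0
  have h2 : 0 < J * (1 + J) ^ 6 := by positivity
  exact h2.ne' h1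

end NF
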