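import Pool.Agent.Helper3.NF.Gen3
import Pool.Agent.Helper3.NF.Ode3
import Pool.Agent.Helper58.N4.Curve
import Pool.Agent.Helper95.N5.Flat3
import Pool.Agent.Helper95.N5.N4case
import Pool.Agent.Helper29.N2.Link
import Pool.Agent.Helper29.N2.Link2

/-!
# Null 2-type surfaces with flat normal bundle: assembly of the cases
-/

set_option autoImplicit false
set_option linter.all false
set_option maxRecDepth 100000

namespace NF

open N4

/-- evaluation at a point -/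
noncomputable def ev {V : TopologicalSpace.Opens (ℝ × ℝ)} (z : V) : SF V →ₐ[ℝ] ℝ :=
  (Pi.evalAlgHom ℝ (fun _ : V => ℝ) z).comp (SF V).val

theorem ev_val {V : TopologicalSpace.Opens (ℝ × ℝ)} (z : V) (a : SF V) : ev z a = a.1 z := rfl

/-- a curve along a derivation, as a curve of evaluations -/
theorem exists_cur (V : TopologicalSpace.Opens (ℝ × ℝ)) (A B : SF V) (q0 : V) :
    ∃ (ε : ℝ) (φ : ℝ → (SF V →ₐ[ℝ] ℝ)), Cur (A • Pu V + B • Pv V) φ ε ∧
      ∀ t, ∃ z : V, φ t = ev z := by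
  classical
  obtain ⟨ε, hε, γ, h0, hγ⟩ := exists_curve V A B q0
  refine ⟨ε, fun t => if h : γ t ∈ V then ev ⟨γ t, h⟩ else ev q0, ⟨hε, ?_⟩, ?_⟩
  · intro t ht a
    have key : ∀ s ∈ Set.Ioo (-ε) ε, ∀ a : SF V,
        (if h : γ s ∈ V then ev ⟨γ s, h⟩ else ev q0) a = ext V a.1 (γ s) := by
      intro s hs a
      have h := (hγ s hs).1
      rw [dif_pos h, ev_val, ext_of_mem V _ _ h]
    rw [key t ht]
    refine ((hγ t ht).2 a).congr_of_eventuallyEq ?_
    filter_upwards [Ioo_mem_nhds ht.1 ht.2] with s hs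
    exact key s hs a
  · intro t
    by_cases h : γ t ∈ V
    · exact ⟨⟨γ t, h⟩, dif_pos h⟩
    · exact ⟨q0, dif_neg h⟩

section
variable {V : TopologicalSpace.Opens (ℝ × ℝ)} {c : ℝ}
    {a1 a2 b1 b2 p q h w1 w2 x y : SF V}

/-- the generic case -/
theorem generic (hV : (V : Set (ℝ × ℝ)).Nonempty)
    (G : GD V c a1 a2 b1 b2 p q h w1 w2 (h * (1 + x)) 0 (h * (1 - x)) (h * y) 0 (-(h * y)))
    (hy : ∀ z : V, y.1 z ≠ 0) (hx : ∀ z : V, x.1 z ≠ 0)
    (h1 : ∀ z : V, ((a1 • Pu V + a2 • Pv V) h).1 z ≠ 0)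
    (h2 : ∀ z : V, ((b1 • Pu V + b2 • Pv V) h).1 z ≠ 0)
    (h4 : ∀ z : V, (x ^ 2 + y ^ 2 - 4).1 z ≠ 0) : False := by
  obtain ⟨q0, hq0⟩ := hV
  obtain ⟨al, be, -, -, P⟩ := PF.of_se G.se (unit_of_pos G.hpos) (isUnit_of_ne V y hy)
  have hal : ∀ z : V, al.1 z ≠ 0 := by
    intro z hz
    apply h1 z
    rw [P.h1, val_mul, val_mul, val_neg, hz]
    simp
  have hbe : ∀ z : V, be.1 z ≠ 0 := by
    intro z hz
    apply h2 z
    rw [P.h2, val_mul, val_mul, hz]
    simp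
  obtain ⟨ai, hai⟩ := (isUnit_of_ne V al hal).exists_right_inv
  obtain ⟨bi, hbi⟩ := (isUnit_of_ne V be hbe).exists_right_inv
  have hD : (x * y * ai) • (a1 • Pu V + a2 • Pv V) + (x * y * bi) • (b1 • Pu V + b2 • Pv V) =
      (x * y * ai * a1 + x * y * bi * b1) • Pu V + (x * y * ai * a2 + x * y * bi * b2) • Pv V := by
    ext1 u
    simp only [Derivation.coe_add, Derivation.coe_smul, Pi.add_apply, Pi.smul_apply, smul_eq_mul]
    ring
  obtain ⟨ε, φ, K, hφ⟩ := exists_cur V (x * y * ai * a1 + x * y * bi * b1)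
    (x * y * ai * a2 + x * y * bi * b2) ⟨q0, hq0⟩
  rw [← hD] at K
  refine Lev.false (Lev.of_cur P ai bi hai hbi K ?_ ?_ ?_ ?_) (by linarith [K.pos])
  · intro t _
    obtain ⟨z, hz⟩ := hφ t
    rw [hz, ev_val]
    exact hx z
  · intro t _
    obtain ⟨z, hz⟩ := hφ t
    rw [hz, ev_val]
    exact hy z
  · intro t _
    obtain ⟨z, hz⟩ := hφ t
    rw [hz, ev_val]
    exact (G.hpos z).ne'
  · intro t _
    obtain ⟨z, hz⟩ := hφ t
    rw [hz, ev_val, ev_val]
    have := h4 z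
    intro h5
    apply this
    rw [val_sub, val_add, val_pow, val_pow, Pool.Agent.Helper29.N2.val4, h5, sub_self]

theorem nontriv (hV : (V : Set (ℝ × ℝ)).Nonempty) : Nontrivial (SF V) := by
  obtain ⟨z, hz⟩ := hV
  refine ⟨⟨0, 1, fun h => ?_⟩⟩
  have := congrArg (fun a : SF V => a.1 ⟨z, hz⟩) h
  exact zero_ne_one this

theorem restr {W : TopologicalSpace.Opens (ℝ × ℝ)} (hW : W ≤ V)
    (G : GD V c a1 a2 b1 b2 p q h w1 w2 (h * (1 + x)) 0 (h * (1 - x)) (h * y) 0 (-(h * y))) :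
    GD W c (res hW a1) (res hW a2) (res hW b1) (res hW b2) (res hW p) (res hW q) (res hW h)
      (res hW w1) (res hW w2) (res hW h * (1 + res hW x)) 0 (res hW h * (1 - res hW x))
      (res hW h * res hW y) 0 (-(res hW h * res hW y)) := by
  have := G.restrict hW
  simpa only [map_mul, map_add, map_sub, map_one, map_zero, map_neg] using this

theorem res_D {W : TopologicalSpace.Opens (ℝ × ℝ)} (hW : W ≤ V) (a b u : SF V) :
    (res hW a • Pu W + res hW b • Pv W) (res hW u) = res hW ((a • Pu V + b • Pv V) u) :=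
  (comb_map (res hW) (res_Pu hW) (res_Pv hW) a b u).symm

theorem res_ne {W : TopologicalSpace.Opens (ℝ × ℝ)} (hW : W ≤ V) {a : SF V}
    (h : ∀ z : V, a.1 z ≠ 0) : ∀ z : W, (res hW a).1 z ≠ 0 := by
  intro z
  rw [res_val]
  exact h _

/-- last step: `y`, `D1 h`, `D2 h` without zeros -/
theorem step3 (hV : (V : Set (ℝ × ℝ)).Nonempty)
    (G : GD V c a1 a2 b1 b2 p q h w1 w2 (h * (1 + x)) 0 (h * (1 - x)) (h * y) 0 (-(h * y)))
    (hy : ∀ z : V, y.1 z ≠ 0)
    (h1 : ∀ z : V, ((a1 • Pu V + a2 • Pv V) h).1 z ≠ 0)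
    (h2 : ∀ z : V, ((b1 • Pu V + b2 • Pv V) h).1 z ≠ 0) : False := by
  obtain ⟨al, be, -, -, P⟩ := PF.of_se G.se (unit_of_pos G.hpos) (isUnit_of_ne V y hy)
  have hal : ∀ z : V, al.1 z ≠ 0 := by
    intro z hz
    apply h1 z
    rw [P.h1, val_mul, val_mul, val_neg, hz]
    simp
  have hbe : ∀ z : V, be.1 z ≠ 0 := by
    intro z hz
    apply h2 z
    rw [P.h2, val_mul, val_mul, hz]
    simp
  by_cases hx : x = 0
  · obtain ⟨z, hz⟩ := hV
    have := P.x1
    rw [hx, map_zero] at this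
    have h3 := congrArg (fun a : SF V => a.1 ⟨z, hz⟩) this
    have h4 : (al * y).1 ⟨z, hz⟩ = 0 := by
      have e : al * y * (1 + 2 * 0) + 2 * q * 0 = al * y := by ring
      rw [e] at this
      rw [← this]
      rfl
    rw [val_mul] at h4
    exact mul_ne_zero (hal _) (hy _) h4
  by_cases h4 : x ^ 2 + y ^ 2 - 4 = 0
  · have h5 := N5.n4 P (by linear_combination h4) (unit_of_pos G.hpos) (isUnit_of_ne V y hy)
      (isUnit_of_ne V al hal) (isUnit_of_ne V be hbe)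
    obtain ⟨z, hz⟩ := hV
    have h6 := congrArg (fun a : SF V => a.1 ⟨z, hz⟩) h5
    have h7 : 3 * (x.1 ⟨z, hz⟩) ^ 2 + 2 = 0 := by
      have e : (3 * x ^ 2 + 2 : SF V).1 ⟨z, hz⟩ = 0 := h6
      rw [val_add, val_mul, val_pow, Pool.Agent.Helper29.N2.val3, val_two] at e
      exact e
    nlinarith [sq_nonneg (x.1 ⟨z, hz⟩)]
  obtain ⟨W, hW, hWn, -, hxW⟩ := zero_or_unit V x hx
  have G1 := restr hW G
  have h4' : res hW (x ^ 2 + y ^ 2 - 4) ≠ 0 ∨ res hW (x ^ 2 + y ^ 2 - 4) = 0 := by tauto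
  have key : ∀ (Z : TopologicalSpace.Opens (ℝ × ℝ)) (hZ : Z ≤ V), (Z : Set (ℝ × ℝ)).Nonempty →
      (∀ z : Z, (res hZ x).1 z ≠ 0) → (∀ z : Z, (res hZ (x ^ 2 + y ^ 2 - 4)).1 z ≠ 0) → False := by
    intro Z hZ hZn hxZ h4Z
    refine generic hZn (restr hZ G) (res_ne hZ hy) hxZ ?_ ?_ ?_
    · rw [res_D]; exact res_ne hZ h1
    · rw [res_D]; exact res_ne hZ h2
    · simpa only [map_add, map_sub, map_pow, map_ofNat] using h4Z
  rcases h4' with h5 | h5
  · obtain ⟨Z, hZ, hZn, -, h4Z⟩ := zero_or_unit W _ h5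
    refine key Z (hZ.trans hW) hZn ?_ ?_
    · rw [← res_comp hW hZ]
      exact res_ne hZ hxW
    · rw [← res_comp hW hZ]
      exact h4Z
  · -- `x ^ 2 + y ^ 2 = 4` on `W`
    obtain ⟨al', be', -, -, P'⟩ := PF.of_se G1.se (unit_of_pos G1.hpos)
      (isUnit_of_ne W _ (res_ne hW hy))
    have hal' : ∀ z : W, al'.1 z ≠ 0 := by
      intro z hz
      have := res_ne hW h1 z
      rw [← res_D, P'.h1, val_mul, val_mul, val_neg, hz] at this
      simp at this
    have hbe' : ∀ z : W, be'.1 z ≠ 0 := by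
      intro z hz
      have := res_ne hW h2 z
      rw [← res_D, P'.h2, val_mul, val_mul, hz] at this
      simp at this
    have e5 : (res hW x) ^ 2 + (res hW y) ^ 2 = 4 := by
      simp only [map_add, map_sub, map_pow, map_ofNat] at h5
      linear_combination h5
    have h6 := N5.n4 P' e5 (unit_of_pos G1.hpos) (isUnit_of_ne W _ (res_ne hW hy))
      (isUnit_of_ne W _ hal') (isUnit_of_ne W _ hbe')
    obtain ⟨z, hz⟩ := hWn
    have h7 : 3 * ((res hW x).1 ⟨z, hz⟩) ^ 2 + 2 = 0 := by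
      have e : (3 * (res hW x) ^ 2 + 2 : SF W).1 ⟨z, hz⟩ = 0 := by rw [h6]; rfl
      rw [val_add, val_mul, val_pow, Pool.Agent.Helper29.N2.val3, val_two] at e
      exact e
    nlinarith [sq_nonneg ((res hW x).1 ⟨z, hz⟩)]

/-- `y` without zeros -/
theorem step2 (hV : (V : Set (ℝ × ℝ)).Nonempty) (hc : c ≠ 0)
    (G : GD V c a1 a2 b1 b2 p q h w1 w2 (h * (1 + x)) 0 (h * (1 - x)) (h * y) 0 (-(h * y)))
    (hy : ∀ z : V, y.1 z ≠ 0) : False := by
  by_cases h1 : (a1 • Pu V + a2 • Pv V) h = 0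
  · exact Pool.Agent.Helper29.N2.rot_false hV hc G (isUnit_of_ne V y hy) h1
  obtain ⟨W, hW, hWn, -, h1W⟩ := zero_or_unit V _ h1
  have G1 := restr hW G
  by_cases h2 : (res hW b1 • Pu W + res hW b2 • Pv W) (res hW h) = 0
  · exact Pool.Agent.Helper29.N2.rot_false' hWn hc G1 (isUnit_of_ne W _ (res_ne hW hy)) h2
  obtain ⟨Z, hZ, hZn, -, h2Z⟩ := zero_or_unit W _ h2
  refine step3 hZn (restr hZ G1) (res_ne hZ (res_ne hW hy)) ?_ ?_
  · rw [res_D, res_D]
    exact res_ne hZ h1W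
  · rw [res_D]
    exact h2Z

/-- **There is no surface patch with flat normal bundle and nonconstant mean curvature** -/
theorem no_flat (hV : (V : Set (ℝ × ℝ)).Nonempty) (hc : c ≠ 0)
    (G : GD V c a1 a2 b1 b2 p q h w1 w2 (h * (1 + x)) 0 (h * (1 - x)) (h * y) 0 (-(h * y))) :
    False := by
  by_cases hy : y = 0
  · by_cases h1 : (a1 • Pu V + a2 • Pv V) h = 0
    · haveI := nontriv hV
      refine N5.flat3 G.se hy (unit_of_pos G.hpos) (Or.inr (isUnit_of_ne V _ ?_))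
      intro z h2
      exact G.grad_ne z ⟨by rw [h1]; rfl, h2⟩
    · obtain ⟨W, hW, hWn, -, h1W⟩ := zero_or_unit V _ h1
      haveI := nontriv hWn
      have G1 := restr hW G
      refine N5.flat3 G1.se (by rw [hy, map_zero]) (unit_of_pos G1.hpos)
        (Or.inl (isUnit_of_ne W _ ?_))
      rw [res_D]
      exact h1W
  · obtain ⟨W, hW, hWn, -, hyW⟩ := zero_or_unit V _ hy
    exact step2 hWn hc (restr hW G) hyW

end

end NF
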