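import Pool.Agent.Helper3.NF.Poly

/-!
# Null 2-type surfaces with flat normal bundle: differentiation along the level curves
-/

set_option autoImplicit false
set_option linter.all false
set_option maxRecDepth 100000

namespace NF

/-- the six functions on an interval along a level curve of the mean curvature -/
structure Lev (X N u s e C : ℝ → ℝ) (a b : ℝ) : Prop where
  hX : ∀ t ∈ Set.Ioo a b, 0 < X t
  hXN : ∀ t ∈ Set.Ioo a b, X t < N t
  hN4 : ∀ t ∈ Set.Ioo a b, N t ≠ 4
  dX : ∀ t ∈ Set.Ioo a b, HasDerivAt X (2 * X t * (3 * N t - N t ^ 2 / 4 - 2 * X t)) t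
  dN : ∀ t ∈ Set.Ioo a b, HasDerivAt N (N t ^ 2 * (4 - N t) / 2) t
  du : ∀ t ∈ Set.Ioo a b, HasDerivAt u (-(5 / 2) * X t * N t - 4 * X t * u t - 4 * X t
    + 3 / 16 * N t ^ 3 - N t ^ 2 * u t - N t ^ 2 / 2 + 2 * N t * u t + N t) t
  ds : ∀ t ∈ Set.Ioo a b, HasDerivAt s (2 * X t * N t + 8 * X t * s t - X t * C t + 2 * X t
    + 2 * N t * e t) t
  de : ∀ t ∈ Set.Ioo a b, HasDerivAt e (2 * N t * e t - 6 * X t * e t - 4 * X t ^ 2
    + X t * (4 * u t * s t - N t * s t - 4 * s t + 2 * C t - 4)) t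
  dC : ∀ t ∈ Set.Ioo a b, HasDerivAt C 0 t
  hS : ∀ t ∈ Set.Ioo a b, SUM (X t) (N t) (u t) (s t) (e t) (C t) = 0
  hD : ∀ t ∈ Set.Ioo a b, DIF (X t) (N t) (u t) (s t) (e t) (C t) = 0

variable {X N u s e C : ℝ → ℝ} {a b : ℝ}

theorem Lev.dSUM (h : Lev X N u s e C a b) {t : ℝ} (ht : t ∈ Set.Ioo a b) :
    HasDerivAt (fun t => SUM (X t) (N t) (u t) (s t) (e t) (C t))
      (DSUM (X t) (N t) (u t) (s t) (e t) (C t)) t := by
  have hX := h.dX t ht
  have hN := h.dN t ht
  have hu := h.du t ht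
  have hs := h.ds t ht
  have he := h.de t ht
  have hC := h.dC t ht
  unfold SUM
  refine HasDerivAt.congr_deriv (by
    repeat' first
      | exact hX | exact hN | exact hu | exact hs | exact he | exact hC
      | exact hasDerivAt_const _ _
      | with_reducible apply HasDerivAt.fun_pow | with_reducible apply HasDerivAt.fun_add
      | with_reducible apply HasDerivAt.fun_mul) ?_
  unfold DSUM
  simp only [Nat.reduceSub, Nat.cast_ofNat, pow_one]
  ring

theorem Lev.dDIF (h : Lev X N u s e C a b) {t : ℝ} (ht : t ∈ Set.Ioo a b) :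
    HasDerivAt (fun t => DIF (X t) (N t) (u t) (s t) (e t) (C t))
      (DDIF (X t) (N t) (u t) (s t) (e t) (C t)) t := by
  have hX := h.dX t ht
  have hN := h.dN t ht
  have hu := h.du t ht
  have hs := h.ds t ht
  have he := h.de t ht
  have hC := h.dC t ht
  unfold DIF
  refine HasDerivAt.congr_deriv (by
    repeat' first
      | exact hX | exact hN | exact hu | exact hs | exact he | exact hC
      | exact hasDerivAt_const _ _
      | with_reducible apply HasDerivAt.fun_pow | with_reducible apply HasDerivAt.fun_add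
      | with_reducible apply HasDerivAt.fun_mul) ?_
  unfold DDIF
  simp only [Nat.reduceSub, Nat.cast_ofNat, pow_one]
  ring

theorem Lev.dt (h : Lev X N u s e C a b) {t : ℝ} (ht : t ∈ Set.Ioo a b) :
    DT (X t) (N t) (u t) = 0 := by
  have hnb : Set.Ioo a b ∈ nhds t := Ioo_mem_nhds ht.1 ht.2
  have z1 : DSUM (X t) (N t) (u t) (s t) (e t) (C t) = 0 := by
    have h1 := h.dSUM ht
    have h2 : HasDerivAt (fun t => SUM (X t) (N t) (u t) (s t) (e t) (C t)) 0 t := by
      refine (hasDerivAt_const t (0 : ℝ)).congr_of_eventuallyEq ?_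
      filter_upwards [hnb] with τ hτ using h.hS τ hτ
    exact h1.unique h2
  have z2 : DDIF (X t) (N t) (u t) (s t) (e t) (C t) = 0 := by
    have h1 := h.dDIF ht
    have h2 : HasDerivAt (fun t => DIF (X t) (N t) (u t) (s t) (e t) (C t)) 0 t := by
      refine (hasDerivAt_const t (0 : ℝ)).congr_of_eventuallyEq ?_
      filter_upwards [hnb] with τ hτ using h.hD τ hτ
    exact h1.unique h2
  exact det_zero _ _ _ _ _ _ (h.hS t ht) (h.hD t ht) z1 z2

end NF
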