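import Pool.Agent.Helper3.NF.Ode1

/-!
# Null 2-type surfaces with flat normal bundle: the end of the generic case
-/

set_option autoImplicit false
set_option linter.all false
set_option maxRecDepth 100000

namespace NF

/-- the determinant in the variables `z = 1 / N`, `g = 1 + J (4 z - 1)²`, `U` -/
def HDT {R : Type*} [CommRing R] (z g U : R) : R :=
      (589824*z^10*g^6 + (-7004160)*z^10*g^5 + 21848064*z^10*g^4 + (-25460736)*z^10*g^3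
        + 6193152*z^10*g^2 + (-16384)*z^9*g^7 + (-768000)*z^9*g^6 + 16543744*z^9*g^5)
      + ((-51103744)*z^9*g^4 + 67809280*z^9*g^3 + (-1499136)*z^9*g^2 + (-31408128)*z^9*g
        + 37888*z^8*g^7 + (-1316864)*z^8*g^6 + 98304*z^8*g^5*U + (-4726784)*z^8*g^5)
      + ((-4292608)*z^8*g^4*U + 20139008*z^8*g^4 + 18481152*z^8*g^3*U + (-22003712)*z^8*g^3
        + (-4653056)*z^8*g^2*U + (-49262592)*z^8*g^2 + (-16515072)*z^8*g*U + 111071232*z^8*g)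
      + ((-53084160)*z^8 + (-15872)*z^7*g^7 + (-40960)*z^7*g^6*U + 1238784*z^7*g^6
        + 376832*z^7*g^5*U + (-1021952)*z^7*g^5 + 6799360*z^7*g^4*U + (-7883008)*z^7*g^4)
      + ((-7323648)*z^7*g^3*U + 30674432*z^7*g^3 + (-14753792)*z^7*g^2*U + (-39200256)*z^7*g^2
        + 83312640*z^7*g*U + 16220160*z^7*g + (-67829760)*z^7*U + (-18688)*z^6*g^7)
      + (61440*z^6*g^6*U + (-347136)*z^6*g^6 + (-1478656)*z^6*g^5*U + 1513248*z^6*g^5
        + (-4433920)*z^6*g^4*U + (-3438240)*z^6*g^4 + 4587520*z^6*g^3*U^2 + 16539648*z^6*g^3*U)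
      + (3561344*z^6*g^3 + (-917504)*z^6*g^2*U^2 + (-52856832)*z^6*g^2*U + (-1332864)*z^6*g^2
        + 13893632*z^6*g*U^2 + 77647872*z^6*g*U + (-21626880)*z^6*U^2 + (-34357248)*z^6*U)
      + (13248*z^5*g^7 + (-11776)*z^5*g^6*U + (-17688)*z^5*g^6 + (-16384)*z^5*g^5*U^2
        + 1015296*z^5*g^5*U + 13776*z^5*g^5 + 950272*z^5*g^4*U^2 + (-2494464)*z^5*g^4*U)
      + ((-8936)*z^5*g^4 + (-49152)*z^5*g^3*U^2 + 9131520*z^5*g^3*U + 4272*z^5*g^3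
        + (-13746176)*z^5*g^2*U^2 + (-15279616)*z^5*g^2*U + 56573952*z^5*g*U^2 + 7489536*z^5*g*U)
      + ((-42663936)*z^5*U^2 + (-2260)*z^4*g^7 + (-13824)*z^4*g^6*U + 6440*z^4*g^6
        + 16384*z^4*g^5*U^2 + (-20608)*z^4*g^5*U + (-3444)*z^4*g^5 + (-1220608)*z^4*g^4*U^2)
      + ((-398080)*z^4*g^4*U + 408*z^4*g^4 + 131072*z^4*g^3*U^3 + 2301952*z^4*g^3*U^2
        + 800512*z^4*g^3*U + 131072*z^4*g^2*U^3 + (-10272768)*z^4*g^2*U^2 + (-406144)*z^4*g^2*U)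
      + (12058624*z^4*g*U^3 + 16932864*z^4*g*U^2 + (-13107200)*z^4*U^3 + (-7446528)*z^4*U^2
        + 14*z^3*g^7 + 4416*z^3*g^6*U + (-382)*z^3*g^6 + 3296*z^3*g^5*U)
      + (200*z^3*g^5 + 193536*z^3*g^4*U^2 + (-1408)*z^3*g^4*U + 360448*z^3*g^3*U^3
        + 389120*z^3*g^3*U^2 + 160*z^3*g^3*U + (-1671168)*z^3*g^2*U^3 + (-1736704)*z^3*g^2*U^2)
      + (9601024*z^3*g*U^3 + 1063936*z^3*g*U^2 + (-7962624)*z^3*U^3 + 11*z^2*g^7 + (-224)*z^2*g^6*U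
        + (-5)*z^2*g^6 + (-1280)*z^2*g^5*U^2 + (-21760)*z^2*g^4*U^2)
      + (160*z^2*g^4*U + (-303104)*z^2*g^3*U^3 + 54528*z^2*g^3*U^2 + (-360448)*z^2*g^2*U^3
        + (-30976)*z^2*g^2*U^2 + 1966080*z^2*g*U^4 + 1277952*z^2*g*U^3 + (-1966080)*z^2*U^4)
      + ((-630784)*z^2*U^3 + (-8)*z*g^6*U + 128*z*g^5*U^2 + (-8)*z*g^5*U + 640*z*g^4*U^2
        + 26624*z*g^3*U^3 + (-256)*z*g^3*U^2 + 163840*z*g^2*U^4)
      + ((-86016)*z*g^2*U^3 + 196608*z*g*U^4 + 55296*z*g*U^3 + (-360448)*z*U^4 + (-16384)*g^2*U^4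
        + 32768*g*U^4 + (-16384)*U^4)

/-- the case `κ = 0` -/
def HQ {R : Type*} [CommRing R] (z g : R) : R :=
      (503316480*z^12*g + (-503316480)*z^12 + 8388608*z^11*g^3 + (-201326592)*z^11*g^2
        + (-939524096)*z^11*g + 1082130432*z^11 + (-3145728)*z^10*g^4 + 94371840*z^10*g^3)
      + (263192576*z^10*g^2 + 765460480*z^10*g + (-994050048)*z^10 + 524288*z^9*g^5
        + (-19922944)*z^9*g^4 + (-124256256)*z^9*g^3 + (-221773824)*z^9*g^2 + (-233832448)*z^9*g)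
      + (457703424*z^9 + 425984*z^8*g^6 + (-5734400)*z^8*g^5 + 52920320*z^8*g^4 + 58228736*z^8*g^3
        + 111935488*z^8*g^2 + (-23920640)*z^8*g + (-99483648)*z^8)
      + ((-450560)*z^7*g^6 + 11313152*z^7*g^5 + (-74555392)*z^7*g^4 + 42754048*z^7*g^3
        + (-66191360)*z^7*g^2 + 43286528*z^7*g + 2555904*z^7 + 2048*z^6*g^7)
      + ((-1146880)*z^6*g^6 + 2220032*z^6*g^5 + 20779008*z^6*g^4 + (-13981696)*z^6*g^3
        + 8687616*z^6*g^2 + (-5550080)*z^6*g + 1376256*z^6 + 4608*z^5*g^7)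
      + (644096*z^5*g^6 + (-2973696)*z^5*g^5 + (-1537024)*z^5*g^4 + 1803776*z^5*g^3 + 57344*z^5*g^2
        + (-579584)*z^5*g + (-14208)*z^4*g^7 + (-72576)*z^4*g^6)
      + (761472*z^4*g^5 + (-227456)*z^4*g^4 + (-282880)*z^4*g^3 + 204288*z^4*g^2 + 6368*z^3*g^7
        + (-21984)*z^3*g^6 + (-73504)*z^3*g^5 + 77536*z^3*g^4)
      + ((-22976)*z^3*g^3 + (-720)*z^2*g^7 + 5936*z^2*g^6 + (-2128)*z^2*g^5 + (-1168)*z^2*g^4
        + (-48)*z*g^7 + (-256)*z*g^6 + 256*z*g^5)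
      + (8*g^7 + (-8)*g^6)

theorem HDT_map {R S : Type*} [CommRing R] [CommRing S] (f : R →+* S) (z g U : R) :
    f (HDT z g U) = HDT (f z) (f g) (f U) := by
  unfold HDT
  simp only [map_add, map_mul, map_neg, map_pow, map_ofNat, map_one]

theorem HQ_map {R S : Type*} [CommRing R] [CommRing S] (f : R →+* S) (z g : R) :
    f (HQ z g) = HQ (f z) (f g) := by
  unfold HQ
  simp only [map_add, map_mul, map_neg, map_pow, map_ofNat, map_one]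

theorem DT_HDT (z g U : ℝ) (hz : z ≠ 0) (hg : g ≠ 0) :
    128 * z ^ 15 * g ^ 7 * DT (1 / (z * g)) (1 / z) (U / (z ^ 2 * g)) = HDT z g U := by
  unfold DT HDT
  field_simp
  ring

theorem HDT_HQ (z g : ℝ) :
    1 * HDT z g (z * (3 / 8 * g + z * (4 * z - 4 - g / 2))) = z ^ 2 * HQ z g := by
  unfold HDT HQ
  ring

end NF
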