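import Mathlib

/-!
# Null 2-type surfaces with flat normal bundle: the linear elimination
-/

set_option autoImplicit false
set_option linter.all false
set_option maxRecDepth 100000

namespace NF

/-- first condition (linear in `s, e, C`) -/
noncomputable def SUM (X N u s e C : ℝ) : ℝ :=
      ((-18)*X^2 + 2*X*N^2 + (-4)*X*N*u + 5*X*N*s + (-1)*X*N*C + 4*X*N + 8*X*u*s + (-4)*X*s)
      + ((-24)*X*e + 4*X*C + (-8)*X + (-1/8)*N^3*s + 2*N^2*s + 4*N^2*e + (-1/4)*N^2*C + (1/2)*N^2)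
      + ((-4)*N*u*e + (-6)*N*s + 1*N*C + (-2)*N)

/-- second condition (linear in `s, e, C`) -/
noncomputable def DIF (X N u s e C : ℝ) : ℝ :=
      ((-5)*X*N + (-24)*X*s + (9/2)*X*C + 5*X + (1/4)*N^3 + (1/2)*N^2*s + (-2)*N*u*s + 6*N*s)
      + ((-7)*N*e + (-5/2)*N*C + 7*N + (-24)*u*s + 4*u*C + (-8)*u + 28*e)

/-- derivative of `SUM` along the level curves of the mean curvature -/
noncomputable def DSUM (X N u s e C : ℝ) : ℝ :=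
      (240*X^3 + 14*X^2*N^2 + 64*X^2*N*u + 24*X^2*N*s + (-1)*X^2*N*C + (-214)*X^2*N
        + (-96)*X^2*u*s + (-8)*X^2*u*C)
      + (16*X^2*u + 48*X^2*s + 240*X^2*e + (-60)*X^2*C + 120*X^2 + (-4)*X*N^4 + 8*X*N^3*u
        + (-17/2)*X*N^3*s)
      + ((9/8)*X*N^3*C + (87/4)*X*N^3 + 8*X*N^2*u*s + (-40)*X*N^2*u + 38*X*N^2*s + 8*X*N^2*e
        + (-4)*X*N^2*C + 8*X*N^2)
      + ((-16)*X*N*u^2*s + 80*X*N*u*s + 56*X*N*u*e + (-8)*X*N*u*C + 16*X*N*u + (-64)*X*N*s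
        + (-184)*X*N*e + 30*X*N*C)
      + ((-60)*X*N + (3/16)*N^5*s + (-11/4)*N^4*s + (-5)*N^4*e + (1/4)*N^4*C + (-1/2)*N^4
        + 6*N^3*u*e + 11*N^3*s)
      + (30*N^3*e + (-3/2)*N^3*C + 3*N^3 + (-24)*N^2*u*e + (-12)*N^2*s + (-16)*N^2*e + 2*N^2*C
        + (-4)*N^2)

/-- derivative of `DIF` along the level curves of the mean curvature -/
noncomputable def DDIF (X N u s e C : ℝ) : ℝ :=
      ((-96)*X^2*s + 6*X^2*C + (-180)*X^2 + 6*X*N^3 + (-4)*X*N^2*u + 28*X*N^2*s + (-11/4)*X*N^2*C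
        + (-59/2)*X*N^2)
      + ((-36)*X*N*u*s + 2*X*N*u*C + (-52)*X*N*u + (-28)*X*N*s + (-6)*X*N*e + (-3)*X*N*C + 90*X*N
        + 16*X*u*s)
      + (8*X*u*C + (-16)*X*u + (-16)*X*s + (-168)*X*e + 40*X*C + (-80)*X + (-3/8)*N^5 + (-7/8)*N^4*s)
      + ((3/2)*N^4 + 3*N^3*u*s + (-9/2)*N^3*s + (9/2)*N^3*e + 2*N^3*C + (-5)*N^3 + 16*N^2*u*s
        + (-4)*N^2*u*e)
      + ((-4)*N^2*u*C + 8*N^2*u + 22*N^2*s + (-16)*N^2*e + (-7)*N^2*C + 18*N^2 + (-48)*N*u*s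
        + (-48)*N*u*e)
      + (8*N*u*C + (-16)*N*u + (-24)*N*s + 56*N*e + 4*N*C + (-8)*N)

/-- the determinant of the four linear conditions -/
noncomputable def DT (X N u : ℝ) : ℝ :=
      ((-414720)*X^7 + 126720*X^6*N^2 + (-268416)*X^6*N*u + 867744*X^6*N + (-529920)*X^6*u
        + (-245376)*X^6 + (-10413)*X^5*N^4 + 58512*X^5*N^3*u)
      + ((-306252)*X^5*N^3 + (-58176)*X^5*N^2*u^2 + 606624*X^5*N^2*u + (-384864)*X^5*N^2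
        + (-333312)*X^5*N*u^2 + 650880*X^5*N*u + (-11712)*X^5*N + (-168960)*X^5*u^2)
      + ((-129024)*X^5*u + 48384*X^5 + (267/8)*X^4*N^6 + (-3173)*X^4*N^5*u + 27823*X^4*N^5
        + 8312*X^4*N^4*u^2 + (-119372)*X^4*N^4*u + 239644*X^4*N^4)
      + ((-4928)*X^4*N^3*u^3 + 132288*X^4*N^3*u^2 + (-412944)*X^4*N^3*u + (-171904)*X^4*N^3
        + (-62208)*X^4*N^2*u^3 + 441984*X^4*N^2*u^2 + (-115264)*X^4*N^2*u + 529760*X^4*N^2)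
      + ((-102400)*X^4*N*u^3 + 108544*X^4*N*u^2 + (-36352)*X^4*N*u + (-198912)*X^4*N
        + (51/16)*X^3*N^8 + (5/4)*X^3*N^7*u + (-1117/16)*X^3*N^7 + (-242)*X^3*N^6*u^2)
      + (6254*X^3*N^6*u + (-107445/4)*X^3*N^6 + 432*X^3*N^5*u^3 + (-13568)*X^3*N^5*u^2
        + 71340*X^3*N^5*u + (-61586)*X^3*N^5 + (-128)*X^3*N^4*u^4 + 9984*X^3*N^4*u^3)
      + ((-80256)*X^3*N^4*u^2 + 129216*X^3*N^4*u + 157336*X^3*N^4 + (-2816)*X^3*N^3*u^4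
        + 75008*X^3*N^3*u^3 + (-107392)*X^3*N^3*u^2 + (-57216)*X^3*N^3*u + (-399248)*X^3*N^3)
      + ((-15360)*X^3*N^2*u^4 + 94208*X^3*N^2*u^3 + (-7168)*X^3*N^2*u^2 + 144384*X^3*N^2*u
        + 170688*X^3*N^2 + (25/16)*X^2*N^10 + (5/4)*X^2*N^9*u + (-861/32)*X^2*N^9)
      + ((-2)*X^2*N^8*u^2 + (-11)*X^2*N^8*u + (861/8)*X^2*N^8 + 426*X^2*N^7*u^2 + (-3110)*X^2*N^7*u
        + (47289/4)*X^2*N^7 + (-672)*X^2*N^6*u^3 + 3040*X^2*N^6*u^2)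
      + ((-19488)*X^2*N^6*u + (-7984)*X^2*N^6 + 256*X^2*N^5*u^4 + (-2816)*X^2*N^5*u^3
        + 17984*X^2*N^5*u^2 + (-34640)*X^2*N^5*u + (-36928)*X^2*N^5 + 1536*X^2*N^4*u^4)
      + ((-13056)*X^2*N^4*u^3 + (-384)*X^2*N^4*u^2 + 53120*X^2*N^4*u + 129248*X^2*N^4
        + 15360*X^2*N^3*u^4 + 1024*X^2*N^3*u^3 + 35840*X^2*N^3*u^2 + (-33536)*X^2*N^3*u)
      + ((-54720)*X^2*N^3 + (-5/128)*X*N^12 + (-1/16)*X*N^11*u + (-191/64)*X*N^11 + (805/16)*X*N^10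
        + 5*X*N^9*u^2 + (103/4)*X*N^9*u + (-2211/16)*X*N^9)
      + ((-170)*X*N^8*u^2 + (-161)*X*N^8*u + (-2712)*X*N^8 + 208*X*N^7*u^3 + 1512*X*N^7*u^2
        + 7932*X*N^7*u + 9678*X*N^7 + (-128)*X*N^6*u^4)
      + ((-2368)*X*N^6*u^3 + (-9536)*X*N^6*u^2 + (-11552)*X*N^6*u + (-10288)*X*N^6 + 1280*X*N^5*u^4
        + 2816*X*N^5*u^3 + 7424*X*N^5*u^2 + 2944*X*N^5*u)
      + ((-6000)*X*N^5 + 1024*X*N^4*u^3 + 768*X*N^4*u + 4608*X*N^4 + (11/128)*N^13 + (-1/16)*N^12*u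
        + (7/64)*N^12 + (-7/4)*N^11*u)
      + ((-565/32)*N^11 + 1*N^10*u^2 + (69/2)*N^10*u + (207/2)*N^10 + (-10)*N^9*u^2 + (-108)*N^9*u
        + (-146)*N^9 + (-92)*N^8*u)
      + ((-124)*N^8 + 128*N^7*u^2 + 480*N^7*u + 296*N^7 + (-128)*N^6*u^2 + (-320)*N^6*u + (-128)*N^6)


theorem det_zero (X N u s e C : ℝ) (h1 : SUM X N u s e C = 0) (h2 : DIF X N u s e C = 0)
    (h3 : DSUM X N u s e C = 0) (h4 : DDIF X N u s e C = 0) : DT X N u = 0 := by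
  unfold SUM at h1
  unfold DIF at h2
  unfold DSUM at h3
  unfold DDIF at h4
  unfold DT
  linear_combination
    (((-69120)*X^5 + 11544*X^4*N^2 + (-34944)*X^4*N*u + 100848*X^4*N + (-136704)*X^4*u
        + (-145728)*X^4 + (1411/2)*X^3*N^4 + 1864*X^3*N^3*u)
      + ((-28060)*X^3*N^3 + (-3744)*X^3*N^2*u^2 + 75696*X^3*N^2*u + 23544*X^3*N^2
        + (-77696)*X^3*N*u^2 + (-9152)*X^3*N*u + 5696*X^3*N + (-53248)*X^3*u^2)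
      + ((-68096)*X^3*u + 26880*X^3 + (-3205/16)*X^2*N^6 + (1163/2)*X^2*N^5*u + (2575/2)*X^2*N^5
        + (-228)*X^2*N^4*u^2 + (-6942)*X^2*N^4*u + 12636*X^2*N^4)
      + (96*X^2*N^3*u^3 + 11072*X^2*N^3*u^2 + (-31048)*X^2*N^3*u + (-53736)*X^2*N^3
        + (-11392)*X^2*N^2*u^3 + 41792*X^2*N^2*u^2 + 88672*X^2*N^2*u + 117328*X^2*N^2)
      + ((-27648)*X^2*N*u^3 + (-31744)*X^2*N*u^2 + (-44800)*X^2*N*u + (-93184)*X^2*N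
        + (529/64)*X*N^8 + (-307/8)*X*N^7*u + (2087/16)*X*N^7 + 31*X*N^6*u^2)
      + ((-877/2)*X*N^6*u + (-7901/4)*X*N^6 + 24*X*N^5*u^3 + 656*X*N^5*u^2 + 7634*X*N^5*u
        + 7066*X*N^5 + (-288)*X*N^4*u^3 + (-10608)*X*N^4*u^2)
      + ((-22504)*X*N^4*u + (-15980)*X*N^4 + (-256)*X*N^3*u^4 + 7424*X*N^3*u^3 + 19712*X*N^3*u^2
        + 32640*X*N^3*u + 10992*X*N^3 + (-3072)*X*N^2*u^4)
      + ((-5120)*X*N^2*u^2 + (-14336)*X*N^2*u + 448*X*N^2 + (-475/64)*N^9 + (277/8)*N^8*u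
        + (807/16)*N^8 + (-45)*N^7*u^2 + (-223)*N^7*u)
      + ((-59)*N^7 + 24*N^6*u^3 + 324*N^6*u^2 + 384*N^6*u + (-80)*N^6 + (-192)*N^5*u^3
        + (-784)*N^5*u^2 + (-816)*N^5*u)
      + (572*N^5 + 384*N^4*u^3 + 832*N^4*u^2 + 224*N^4*u + (-240)*N^4)) * h1
    + (((-14688)*X^5*N + (-20736)*X^5*u + (-44928)*X^5 + 3090*X^4*N^3 + 3024*X^4*N^2*u
        + 31608*X^4*N^2 + (-13056)*X^4*N*u^2 + (-44736)*X^4*N*u)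
      + (3360*X^4*N + (-10752)*X^4*u^2 + (-19968)*X^4*u + 8064*X^4 + (-113/2)*X^3*N^5
        + (-948)*X^3*N^4*u + (-6814)*X^3*N^4 + 3856*X^3*N^3*u^2)
      + (11584*X^3*N^3*u + (-7328)*X^3*N^3 + (-2432)*X^3*N^2*u^3 + (-6592)*X^3*N^2*u^2
        + 33728*X^3*N^2*u + 16928*X^3*N^2 + (-5120)*X^3*N*u^3 + (-18432)*X^3*N*u^2)
      + ((-13824)*X^3*N*u + (-24192)*X^3*N + (-523/32)*X^2*N^7 + (511/4)*X^2*N^6*u
        + (2587/8)*X^2*N^6 + (-416)*X^2*N^5*u^2 + (-7)*X^2*N^5*u + 3932*X^2*N^5)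
      + (496*X^2*N^4*u^3 + (-2096)*X^2*N^4*u^2 + (-14684)*X^2*N^4*u + (-13336)*X^2*N^4
        + (-128)*X^2*N^3*u^4 + 1472*X^2*N^3*u^3 + 14656*X^2*N^3*u^2 + 21296*X^2*N^3*u)
      + (21336*X^2*N^3 + (-512)*X^2*N^2*u^4 + (-5120)*X^2*N^2*u^3 + (-3072)*X^2*N^2*u^2
        + (-10496)*X^2*N^2*u + (-9440)*X^2*N^2 + (73/128)*X*N^9 + (-23/8)*X*N^8*u)
      + ((323/32)*X*N^8 + (9/2)*X*N^7*u^2 + (-473/4)*X*N^7*u + (-1977/8)*X*N^7 + 494*X*N^6*u^2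
        + 1405*X*N^6*u + 179*X*N^6 + (-624)*X*N^5*u^3)
      + ((-2616)*X*N^5*u^2 + (-1868)*X*N^5*u + 2822*X*N^5 + 256*X*N^4*u^4 + 1472*X*N^4*u^3
        + 3168*X*N^4*u^2 + 16*X*N^4*u + (-9032)*X*N^4)
      + ((-512)*X*N^3*u^4 + (-2048)*X*N^3*u^2 + (-1280)*X*N^3*u + 6560*X*N^3 + (-13/128)*N^10
        + (-5/8)*N^9*u + (-259/32)*N^9 + (3/2)*N^8*u^2)
      + ((73/2)*N^8*u + (191/2)*N^8 + (-26)*N^7*u^2 + (-266)*N^7*u + (-396)*N^7 + 120*N^6*u^2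
        + 664*N^6*u + 674*N^6)
      + ((-160)*N^5*u^2 + (-576)*N^5*u + (-296)*N^5)) * h2
    + (((-6912)*X^4 + 2067*X^3*N^2 + (-3480)*X^3*N*u + 4296*X^3*N + (-6816)*X^3*u + (-1872)*X^3
        + (-1611/8)*X^2*N^4 + 648*X^2*N^3*u)
      + ((-3315/2)*X^2*N^3 + (-344)*X^2*N^2*u^2 + 4224*X^2*N^2*u + 3062*X^2*N^2 + (-3744)*X^2*N*u^2
        + (-4288)*X^2*N*u + (-8840)*X^2*N + (-1024)*X^2*u^2)
      + (1792*X^2*u + 2688*X^2 + (25/4)*X*N^6 + (-111/4)*X*N^5*u + (1521/8)*X*N^5 + 20*X*N^4*u^2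
        + (-705)*X*N^4*u + (-1007/2)*X*N^4)
      + (16*X*N^3*u^3 + 856*X*N^3*u^2 + 1436*X*N^3*u + 2386*X*N^3 + (-448)*X*N^2*u^3
        + (-992)*X*N^2*u^2 + (-3664)*X*N^2*u + (-4232)*X*N^2)
      + ((-512)*X*N*u^3 + (-256)*X*N*u^2 + 896*X*N*u + 4032*X*N + (-97/16)*N^7 + (109/4)*N^6*u
        + (19/2)*N^6 + (-32)*N^5*u^2)
      + ((-35)*N^5*u + (-56)*N^5 + 16*N^4*u^3 + 80*N^4*u^2 + 284*N^4*u + 104*N^4 + (-64)*N^3*u^3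
        + (-192)*N^3*u^2)
      + ((-400)*N^3*u + (-112)*N^3)) * h3
    + (((-1656)*X^4*N + 6336*X^4*u + 10656*X^4 + 488*X^3*N^3 + (-2460)*X^3*N^2*u + (-2760)*X^3*N^2
        + 3040*X^3*N*u^2 + (-2384)*X^3*N*u)
      + ((-7664)*X^3*N + 4352*X^3*u^2 + 8960*X^3*u + 1344*X^3 + (-75/2)*X^2*N^5 + (447/2)*X^2*N^4*u
        + (-333/2)*X^2*N^4 + (-496)*X^2*N^3*u^2)
      + (1848*X^2*N^3*u + 5032*X^2*N^3 + 352*X^2*N^2*u^3 + (-4224)*X^2*N^2*u^2 + (-10424)*X^2*N^2*u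
        + (-11480)*X^2*N^2 + 2048*X^2*N*u^3 + 3328*X^2*N*u^2)
      + (6272*X^2*N*u + 12544*X^2*N + (31/64)*X*N^7 + (-7/4)*X*N^6*u + (613/16)*X*N^6 + 3*X*N^5*u^2
        + (-469/2)*X*N^5*u + (-382)*X*N^5)
      + (640*X*N^4*u^2 + 1416*X*N^4*u + 412*X*N^4 + (-672)*X*N^3*u^3 + (-1616)*X*N^3*u^2
        + (-1496)*X*N^3*u + 1204*X*N^3 + 256*X*N^2*u^4)
      + (256*X*N^2*u^3 + 1024*X*N^2*u^2 + 832*X*N^2*u + (-2128)*X*N^2 + (-19/64)*N^8 + (-1/4)*N^7*u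
        + (-55/8)*N^7 + 1*N^6*u^2)
      + (28*N^6*u + (167/2)*N^6 + (-16)*N^5*u^2 + (-160)*N^5*u + (-234)*N^5 + 48*N^4*u^2 + 208*N^4*u
        + 116*N^4)) * h4

end NF
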