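import Pool.Agent.Helper3.NF.PF
import Pool.Agent.Helper3.NF.Ode1

/-!
# Null 2-type surfaces with flat normal bundle: evaluation of the relations at a point
-/

set_option autoImplicit false
set_option linter.all false
set_option maxRecDepth 100000

namespace NF

variable {A : Type*} [CommRing A] [Algebra ℝ A]
variable {D1 D2 : Derivation ℝ A A} {p q h x y al be : A} {c : ℝ}

theorem lbz (D : Derivation ℝ A A) (a b : A) : D (a * b) = a * D b + b * D a := by
  rw [Derivation.leibniz]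
  rfl

theorem PF.C0 (P : PF D1 D2 p q h x y al be c) :
    8 * x * y * (be * q + al * p) = al * be * (x ^ 2 + y ^ 2) * (4 - (x ^ 2 + y ^ 2)) := by
  linear_combination (-(x ^ 2 + y ^ 2)) * P.r1 + 2 * x * P.r2

theorem PF.dC2 (P : PF D1 D2 p q h x y al be c) :
    8 * (D2 x * y + x * D2 y) * (be * q + al * p) + 8 * x * y * (be * D2 q + q * D2 be
      + al * D2 p + p * D2 al) = (al * D2 be + be * D2 al) * (x ^ 2 + y ^ 2)
      * (4 - (x ^ 2 + y ^ 2)) + al * be * (4 - 2 * (x ^ 2 + y ^ 2))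
      * (2 * x * D2 x + 2 * y * D2 y) := by
  have h := congrArg D2 P.C0
  simp only [map_add, map_sub, map_neg, lbz, Dsq, D2z, D4z, D8z, D2.map_one_eq_zero] at h
  linear_combination h

theorem PF.a12 (P : PF D1 D2 p q h x y al be c) :
    2 * D1 y * D2 al + 2 * y * D1 (D2 al) = -2 * (D1 y * be * q + y * D1 be * q + y * be * D1 q)
      + (D1 al * be + al * D1 be) * (2 * x - (x ^ 2 + y ^ 2))
      + al * be * (2 * D1 x - 2 * x * D1 x - 2 * y * D1 y) := by
  have h := congrArg D1 P.al2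
  simp only [map_add, map_sub, map_neg, lbz, Dsq, D2z, D4z, D8z, D1.map_one_eq_zero] at h
  linear_combination h

theorem PF.b21 (P : PF D1 D2 p q h x y al be c) :
    2 * D2 y * D1 be + 2 * y * D2 (D1 be) = -2 * (D2 y * al * p + y * D2 al * p + y * al * D2 p)
      + (D2 al * be + al * D2 be) * (2 * x + (x ^ 2 + y ^ 2))
      + al * be * (2 * D2 x + 2 * x * D2 x + 2 * y * D2 y) := by
  have h := congrArg D2 P.be1
  simp only [map_add, map_sub, map_neg, lbz, Dsq, D2z, D4z, D8z, D2.map_one_eq_zero] at h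
  linear_combination h

theorem PF.a21 (P : PF D1 D2 p q h x y al be c) :
    4 * D2 y * D1 al + 4 * y * D2 (D1 al) = 4 * (D2 y * be * p + y * D2 be * p + y * be * D2 p)
      - ((12 * (al * D2 al + be * D2 be) + 4 * h * D2 h) * (2 - x)
      - (6 * (al ^ 2 + be ^ 2) + 2 * h ^ 2 + algebraMap ℝ A c) * D2 x
      + (6 * (al * D2 al - be * D2 be) + 4 * h * D2 h * x + 2 * h ^ 2 * D2 x)
        * (2 * x - (x ^ 2 + y ^ 2))
      + (3 * (al ^ 2 - be ^ 2) + 2 * h ^ 2 * x) * (2 * D2 x - 2 * x * D2 x - 2 * y * D2 y)) := by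
  have h := congrArg D2 P.al1
  simp only [map_add, map_sub, map_neg, lbz, Dsq, D2z, D3z, D4z, D6z, D8z, D2.map_one_eq_zero,
    Derivation.map_algebraMap] at h
  linear_combination h

theorem PF.b12 (P : PF D1 D2 p q h x y al be c) :
    4 * D1 y * D2 be + 4 * y * D1 (D2 be) = 4 * (D1 y * al * q + y * D1 al * q + y * al * D1 q)
      + ((12 * (al * D1 al + be * D1 be) + 4 * h * D1 h) * (2 + x)
      + (6 * (al ^ 2 + be ^ 2) + 2 * h ^ 2 + algebraMap ℝ A c) * D1 x
      + (6 * (al * D1 al - be * D1 be) + 4 * h * D1 h * x + 2 * h ^ 2 * D1 x)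
        * (2 * x + (x ^ 2 + y ^ 2))
      + (3 * (al ^ 2 - be ^ 2) + 2 * h ^ 2 * x) * (2 * D1 x + 2 * x * D1 x + 2 * y * D1 y)) := by
  have h := congrArg D1 P.be2
  simp only [map_add, map_sub, map_neg, lbz, Dsq, D2z, D3z, D4z, D6z, D8z, D1.map_one_eq_zero,
    Derivation.map_algebraMap] at h
  linear_combination h

/-- the values at a point -/
structure PtV (x y α β h p q c x1 x2 y1 y2 h1 h2 A1 A2 B1 B2 p1 p2 q1 q2 A12 A21 B12 B21 : ℝ) :
    Prop where
  eh1 : h1 = -α * h * y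
  eh2 : h2 = β * h * y
  ex1 : x1 = α * y * (1 + 2 * x) + 2 * q * x
  ex2 : x2 = β * y * (1 - 2 * x) + 2 * p * x
  ey1 : y1 = α * (y ^ 2 + 2 - x - x ^ 2) + 2 * q * y
  ey2 : y2 = -β * (y ^ 2 + 2 + x - x ^ 2) + 2 * p * y
  eal2 : 2 * y * A2 = -2 * y * β * q + α * β * (2 * x - (x ^ 2 + y ^ 2))
  ebe1 : 2 * y * B1 = -2 * y * α * p + α * β * (2 * x + (x ^ 2 + y ^ 2))
  eal1 : 4 * y * A1 = 4 * y * β * p - ((6 * (α ^ 2 + β ^ 2) + 2 * h ^ 2 + c)
    * (2 - x) + (3 * (α ^ 2 - β ^ 2) + 2 * h ^ 2 * x) * (2 * x - (x ^ 2 + y ^ 2)))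
  ebe2 : 4 * y * B2 = 4 * y * α * q + ((6 * (α ^ 2 + β ^ 2) + 2 * h ^ 2 + c)
    * (2 + x) + (3 * (α ^ 2 - β ^ 2) + 2 * h ^ 2 * x) * (2 * x + (x ^ 2 + y ^ 2)))
  epq : q1 + p2 = p ^ 2 + q ^ 2 + h ^ 2 * (1 - (x ^ 2 + y ^ 2))
  er1 : 2 * x * (p1 - q2) = -α * β * (4 - (x ^ 2 + y ^ 2))
  er2 : (x ^ 2 + y ^ 2) * (p1 - q2) = -4 * y * (α * p + β * q)
  eC0 : 8 * x * y * (β * q + α * p) = α * β * (x ^ 2 + y ^ 2) * (4 - (x ^ 2 + y ^ 2))
  edC2 : 8 * (x2 * y + x * y2) * (β * q + α * p) + 8 * x * y * (β * q2 + q * B2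
      + α * p2 + p * A2) = (α * B2 + β * A2) * (x ^ 2 + y ^ 2)
      * (4 - (x ^ 2 + y ^ 2)) + α * β * (4 - 2 * (x ^ 2 + y ^ 2))
      * (2 * x * x2 + 2 * y * y2)
  eca : A12 - A21 = -p * A1 + q * A2
  ecb : B12 - B21 = -p * B1 + q * B2
  ea12 : 2 * y1 * A2 + 2 * y * A12 = -2 * (y1 * β * q + y * B1 * q + y * β * q1)
      + (A1 * β + α * B1) * (2 * x - (x ^ 2 + y ^ 2))
      + α * β * (2 * x1 - 2 * x * x1 - 2 * y * y1)
  eb21 : 2 * y2 * B1 + 2 * y * B21 = -2 * (y2 * α * p + y * A2 * p + y * α * p2)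
      + (A2 * β + α * B2) * (2 * x + (x ^ 2 + y ^ 2))
      + α * β * (2 * x2 + 2 * x * x2 + 2 * y * y2)
  ea21 : 4 * y2 * A1 + 4 * y * A21 = 4 * (y2 * β * p + y * B2 * p + y * β * p2)
      - ((12 * (α * A2 + β * B2) + 4 * h * h2) * (2 - x)
      - (6 * (α ^ 2 + β ^ 2) + 2 * h ^ 2 + c) * x2
      + (6 * (α * A2 - β * B2) + 4 * h * h2 * x + 2 * h ^ 2 * x2)
        * (2 * x - (x ^ 2 + y ^ 2))
      + (3 * (α ^ 2 - β ^ 2) + 2 * h ^ 2 * x) * (2 * x2 - 2 * x * x2 - 2 * y * y2))
  eb12 : 4 * y1 * B2 + 4 * y * B12 = 4 * (y1 * α * q + y * A1 * q + y * α * q1)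
      + ((12 * (α * A1 + β * B1) + 4 * h * h1) * (2 + x)
      + (6 * (α ^ 2 + β ^ 2) + 2 * h ^ 2 + c) * x1
      + (6 * (α * A1 - β * B1) + 4 * h * h1 * x + 2 * h ^ 2 * x1)
        * (2 * x + (x ^ 2 + y ^ 2))
      + (3 * (α ^ 2 - β ^ 2) + 2 * h ^ 2 * x) * (2 * x1 + 2 * x * x1 + 2 * y * y1))

theorem PF.pt (P : PF D1 D2 p q h x y al be c) (φ : A →ₐ[ℝ] ℝ) :
    PtV (φ x) (φ y) (φ al) (φ be) (φ h) (φ p) (φ q) c (φ (D1 x)) (φ (D2 x)) (φ (D1 y)) (φ (D2 y))
      (φ (D1 h)) (φ (D2 h)) (φ (D1 al)) (φ (D2 al)) (φ (D1 be)) (φ (D2 be)) (φ (D1 p)) (φ (D2 p))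
      (φ (D1 q)) (φ (D2 q)) (φ (D1 (D2 al))) (φ (D2 (D1 al))) (φ (D1 (D2 be)))
      (φ (D2 (D1 be))) := by
  have hc : φ (algebraMap ℝ A c) = c := by
    rw [AlgHom.commutes]; rfl
  constructor
  · have := congrArg φ P.h1
    simpa only [map_add, map_sub, map_neg, map_mul, map_pow, map_ofNat, map_one, hc] using this
  · have := congrArg φ P.h2
    simpa only [map_add, map_sub, map_neg, map_mul, map_pow, map_ofNat, map_one, hc] using this
  · have := congrArg φ P.x1
    simpa only [map_add, map_sub, map_neg, map_mul, map_pow, map_ofNat, map_one, hc] using this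
  · have := congrArg φ P.x2
    simpa only [map_add, map_sub, map_neg, map_mul, map_pow, map_ofNat, map_one, hc] using this
  · have := congrArg φ P.y1
    simpa only [map_add, map_sub, map_neg, map_mul, map_pow, map_ofNat, map_one, hc] using this
  · have := congrArg φ P.y2
    simpa only [map_add, map_sub, map_neg, map_mul, map_pow, map_ofNat, map_one, hc] using this
  · have := congrArg φ P.al2
    simpa only [map_add, map_sub, map_neg, map_mul, map_pow, map_ofNat, map_one, hc] using this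
  · have := congrArg φ P.be1
    simpa only [map_add, map_sub, map_neg, map_mul, map_pow, map_ofNat, map_one, hc] using this
  · have := congrArg φ P.al1
    simpa only [map_add, map_sub, map_neg, map_mul, map_pow, map_ofNat, map_one, hc] using this
  · have := congrArg φ P.be2
    simpa only [map_add, map_sub, map_neg, map_mul, map_pow, map_ofNat, map_one, hc] using this
  · have := congrArg φ P.pq
    simpa only [map_add, map_sub, map_neg, map_mul, map_pow, map_ofNat, map_one, hc] using this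
  · have := congrArg φ P.r1
    simpa only [map_add, map_sub, map_neg, map_mul, map_pow, map_ofNat, map_one, hc] using this
  · have := congrArg φ P.r2
    simpa only [map_add, map_sub, map_neg, map_mul, map_pow, map_ofNat, map_one, hc] using this
  · have := congrArg φ P.C0
    simpa only [map_add, map_sub, map_neg, map_mul, map_pow, map_ofNat, map_one, hc] using this
  · have := congrArg φ P.dC2
    simpa only [map_add, map_sub, map_neg, map_mul, map_pow, map_ofNat, map_one, hc] using this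
  · have := congrArg φ (P.comm al)
    simpa only [map_add, map_sub, map_neg, map_mul, map_pow, map_ofNat, map_one, hc] using this
  · have := congrArg φ (P.comm be)
    simpa only [map_add, map_sub, map_neg, map_mul, map_pow, map_ofNat, map_one, hc] using this
  · have := congrArg φ P.a12
    simpa only [map_add, map_sub, map_neg, map_mul, map_pow, map_ofNat, map_one, hc] using this
  · have := congrArg φ P.b21
    simpa only [map_add, map_sub, map_neg, map_mul, map_pow, map_ofNat, map_one, hc] using this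
  · have := congrArg φ P.a21
    simpa only [map_add, map_sub, map_neg, map_mul, map_pow, map_ofNat, map_one, hc] using this
  · have := congrArg φ P.b12
    simpa only [map_add, map_sub, map_neg, map_mul, map_pow, map_ofNat, map_one, hc] using this

end NF
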