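import Mathlib

/-!
# Null 2-type surfaces with flat normal bundle, rotational case: statements of the rows

The surface is `(R cos θ, R sin θ, z)`, `t` the conformal parameter, `B = 2 R h² (1 + x)`,
`w, v` the part of the mean curvature vector and of its derivative orthogonal to the plane of
rotation, `z` the derivative of the position orthogonal to that plane.
-/

set_option autoImplicit false
set_option linter.all false

namespace NF

/-- the scalar system of the rotational case on the interval `(a, b)` -/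
structure Rot (c : ℝ) (R R1 B B1 u11 u12 u22 u13 u23 u33 : ℝ → ℝ) (a b : ℝ) : Prop where
  dR : ∀ t ∈ Set.Ioo a b, HasDerivAt R (R1 t) t
  dR1 : ∀ t ∈ Set.Ioo a b, HasDerivAt R1 (R t - R t ^ 2 * B t) t
  dB : ∀ t ∈ Set.Ioo a b, HasDerivAt B (B1 t) t
  dB1 : ∀ t ∈ Set.Ioo a b, HasDerivAt B1 ((1 + c * R t ^ 2) * B t) t
  d11 : ∀ t ∈ Set.Ioo a b, HasDerivAt u11 (2 * u12 t) t
  d12 : ∀ t ∈ Set.Ioo a b, HasDerivAt u12 (u22 t + c * R t ^ 2 * u11 t) t
  d22 : ∀ t ∈ Set.Ioo a b, HasDerivAt u22 (2 * c * R t ^ 2 * u12 t) t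
  d13 : ∀ t ∈ Set.Ioo a b, HasDerivAt u13 (u23 t + 2 * R t ^ 2 * u11 t) t
  d23 : ∀ t ∈ Set.Ioo a b, HasDerivAt u23 (c * R t ^ 2 * u13 t + 2 * R t ^ 2 * u12 t) t
  d33 : ∀ t ∈ Set.Ioo a b, HasDerivAt u33 (4 * R t ^ 2 * u13 t) t
  con : ∀ t ∈ Set.Ioo a b, u33 t = R t ^ 2 - R1 t ^ 2

/-- ROW PERSIST: a polynomial all of whose iterated derivatives along a polynomial vector field
vanish at the initial point vanishes along the solution (the ideal generated by the iterated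
derivatives is generated by finitely many of them; linear system; Gronwall) -/
def ST_PERSIST : Prop :=
  ∀ (n : ℕ) (D : Derivation ℝ (MvPolynomial (Fin n) ℝ) (MvPolynomial (Fin n) ℝ))
    (f : MvPolynomial (Fin n) ℝ) (a b : ℝ), a < 0 → 0 < b → ∀ s : ℝ → Fin n → ℝ,
    (∀ t ∈ Set.Ioo a b, ∀ i, HasDerivAt (fun t => s t i)
      (MvPolynomial.eval (s t) (D (MvPolynomial.X i))) t) →
    (∀ k : ℕ, MvPolynomial.eval (s 0) (D^[k] f) = 0) →
    ∀ t ∈ Set.Ioo a b, MvPolynomial.eval (s t) f = 0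

/-- ROW GLOBAL (uses PERSIST): the vector system `R' = R1, R1' = R - R² B, B' = B1,
B1' = (1 + c R²) B, w' = v, v' = c R² w, z' = 2 R² w` with the initial data below has a solution
for all times: on every interval of existence `|z|² = R² - R1²` (persistence, all the iterated
derivatives of `u33 + R1² - R²` vanish at time 0 because of `con`), so `|R1| ≤ R`, so `R` is bounded
and bounded away from zero on bounded intervals, so are `R1`, `B`, `B1`, `w`, `v`, `z` bounded -/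
def ST_GLOBAL : Prop :=
  ∀ (c a b : ℝ) (R R1 B B1 u11 u12 u22 u13 u23 u33 : ℝ → ℝ) (w v z : Fin 3 → ℝ),
    a < 0 → 0 < b → Rot c R R1 B B1 u11 u12 u22 u13 u23 u33 a b → 0 < R 0 →
    ∑ i, w i * w i = u11 0 → ∑ i, w i * v i = u12 0 → ∑ i, v i * v i = u22 0 →
    ∑ i, w i * z i = u13 0 → ∑ i, v i * z i = u23 0 → ∑ i, z i * z i = u33 0 →
    ∃ S S1 E E1 : ℝ → ℝ, S 0 = R 0 ∧ S1 0 = R1 0 ∧ E 0 = B 0 ∧ E1 0 = B1 0 ∧
      (∀ t, 0 < S t) ∧ (∀ t, |S1 t| ≤ S t) ∧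
      (∀ t, HasDerivAt S (S1 t) t) ∧ (∀ t, HasDerivAt S1 (S t - S t ^ 2 * E t) t) ∧
      (∀ t, HasDerivAt E (E1 t) t) ∧ (∀ t, HasDerivAt E1 ((1 + c * S t ^ 2) * E t) t)

/-- ROW ASYM: global solutions -/
def ST_ASYM : Prop :=
  ∀ (c : ℝ) (R R1 B B1 : ℝ → ℝ), c ≠ 0 → (∀ t, 0 < R t) → (∀ t, |R1 t| ≤ R t) →
    (∀ t, HasDerivAt R (R1 t) t) → (∀ t, HasDerivAt R1 (R t - R t ^ 2 * B t) t) →
    (∀ t, HasDerivAt B (B1 t) t) → (∀ t, HasDerivAt B1 ((1 + c * R t ^ 2) * B t) t) →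
    (∀ t, B t = 0) ∨ (∀ t, B t = -c * R t)

end NF
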